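import Pool.Agent.U110.Mark

/-!
# Nested families of boxes in the orbits of a free action of `ℤ²`
-/

set_option autoImplicit false

namespace Pool.Agent.U110

open Pool.Agent.W927.BM Set

/-- side length of the boxes of level `m` -/
def LL (m : ℕ) : ℤ := 2 ^ (m * m + 2 * m + 5)

theorem LL_pos (m : ℕ) : 32 ≤ LL m := by
  unfold LL
  rw [pow_add]
  have : (1 : ℤ) ≤ 2 ^ (m * m + 2 * m) := one_le_pow₀ (by norm_num)
  nlinarith

theorem LL_mono {k m : ℕ} (h : k ≤ m) : LL k ≤ LL m := by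
  unfold LL
  exact pow_le_pow_right₀ (by norm_num) (by nlinarith)

/-- width of the frames of level `m` -/
def el (m : ℕ) : ℤ := LL (m - 1) + 1

/-- relative position of the corner of a box of level `k` with respect to the corner of a box of
level `m > k`: the boxes are separated, or the first one is in the interior of the second one -/
def ok (k m : ℕ) (p : ℤ × ℤ) : Prop :=
  (LL m + 1 ≤ p.1 ∨ p.1 + LL k ≤ -1 ∨ LL m + 1 ≤ p.2 ∨ p.2 + LL k ≤ -1) ∨
  (1 ≤ p.1 ∧ p.1 + LL k ≤ LL m - 1 ∧ 1 ≤ p.2 ∧ p.2 + LL k ≤ LL m - 1)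

/-- position in a box of level `k` -/
def inb (k : ℕ) (h : ℤ × ℤ) : Prop := 0 ≤ h.1 ∧ h.1 < LL k ∧ 0 ≤ h.2 ∧ h.2 < LL k

/-- position close to the boundary of a box of level `m` -/
def frame (m : ℕ) (h : ℤ × ℤ) : Prop :=
  -el m ≤ h.1 ∧ h.1 < LL m + el m ∧ -el m ≤ h.2 ∧ h.2 < LL m + el m ∧
    (h.1 < el m ∨ LL m - el m ≤ h.1 ∨ h.2 < el m ∨ LL m - el m ≤ h.2)

section

variable {X : Type} (P : ℤ × ℤ → X → X) (D : ℕ → Set X) (v : ℕ → ℤ × ℤ)

/-- corners of level `m` -/
def Cor (m : ℕ) : Set X := {z | P (-(v m)) z ∈ D m}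

/-- surviving corners of level `k` -/
def Sur (k : ℕ) : Set X := {z | z ∈ Cor P D v k ∧ ∀ m, k < m → ∀ g, P g z ∈ Cor P D v m → ok k m (-g)}

/-- points in surviving boxes of level `k` -/
def Ins (k : ℕ) : Set X := {x | ∃ h, inb k h ∧ P (-h) x ∈ Sur P D v k}

/-- shifts for which the point `x` is covered -/
def Cov (m : ℕ) (x : X) : Set (ℤ × ℤ) := {w | ∃ h, inb m h ∧ P (-(w + h)) x ∈ D m}

/-- shifts for which the point `x` is in a frame -/
def Kil (m : ℕ) (x : X) : Set (ℤ × ℤ) := {w | ∃ h, frame m h ∧ P (-(w + h)) x ∈ D m}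


variable {P} {D} {v}

/-- the sets `D m` are separated -/
def DSep (P : ℤ × ℤ → X → X) (D : ℕ → Set X) : Prop :=
  ∀ m, ∀ x ∈ D m, ∀ g : ℤ × ℤ, |g.1| ≤ LL m → |g.2| ≤ LL m → P g x ∈ D m → g = 0

variable [MeasurableSpace X]

theorem Pneg (hP : FreeBorel P) (g h : ℤ × ℤ) (x : X) : P (-h) (P g x) = P (g - h) x := by
  rw [← hP.add]
  congr 1
  abel

theorem ins_of_cov (hP : FreeBorel P) {m0 k : ℕ} {x : X} (hm : ∀ m, m0 ≤ m → v m ∉ Kil P D m x)
    (hk : m0 ≤ k) (hc : v k ∈ Cov P D k x) : x ∈ Ins P D v k := by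
  obtain ⟨h, hh, hD⟩ := hc
  refine ⟨h, hh, ?_, ?_⟩
  · change P (-(v k)) (P (-h) x) ∈ D k
    rw [← hP.add, ← neg_add]
    exact hD
  · intro m hkm g hg
    by_contra hno
    apply hm m (by omega)
    refine ⟨-g + h, ?_, ?_⟩
    · unfold ok at hno
      unfold inb at hh
      unfold frame el
      have h1 : LL k ≤ LL (m - 1) := LL_mono (by omega)
      simp only [Prod.fst_add, Prod.snd_add, Prod.fst_neg, Prod.snd_neg] at hno ⊢
      generalize LL k = a at *
      generalize LL m = b at *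
      generalize LL (m - 1) = c at *
      omega
    · have h1 : P (-(v m)) (P g (P (-h) x)) ∈ D m := hg
      rw [← hP.add, ← hP.add] at h1
      convert h1 using 2
      abel

theorem same (hP : FreeBorel P) (hD : DSep P D) {k : ℕ} {y : X} {q q' h h' : ℤ × ℤ}
    (hh : inb k h) (hh' : inb k h') (hS : P (-h) (P q y) ∈ Sur P D v k)
    (hS' : P (-h') (P q' y) ∈ Sur P D v k) (h1 : |q.1 - q'.1| ≤ 1) (h2 : |q.2 - q'.2| ≤ 1) :
    q - h = q' - h' := by
  have a1 : P (-(v k)) (P (-h) (P q y)) ∈ D k := hS.1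
  have a2 : P (-(v k)) (P (-h') (P q' y)) ∈ D k := hS'.1
  have e : P (-(v k)) (P (-h') (P q' y)) =
      P ((q' - h') - (q - h)) (P (-(v k)) (P (-h) (P q y))) := by
    rw [← hP.add, ← hP.add, ← hP.add, ← hP.add, ← hP.add]
    congr 1
    abel
  rw [e] at a2
  unfold inb at hh hh'
  have hL := LL_pos k
  rw [abs_le] at h1 h2
  have := hD k _ a1 ((q' - h') - (q - h)) ?_ ?_ a2
  · exact (sub_eq_zero.1 this).symm
  · simp only [Prod.fst_sub]
    rw [abs_le]
    generalize LL k = a at *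
    omega
  · simp only [Prod.snd_sub]
    rw [abs_le]
    generalize LL k = a at *
    omega

theorem nest (hP : FreeBorel P) {k m : ℕ} (hkm : k < m) {y : X} {q q' h h' : ℤ × ℤ}
    (hh : inb k h) (hh' : inb m h') (hS : P (-h) (P q y) ∈ Sur P D v k)
    (hS' : P (-h') (P q' y) ∈ Sur P D v m) (h1 : |q.1 - q'.1| ≤ 1) (h2 : |q.2 - q'.2| ≤ 1) :
    1 ≤ (q - h).1 - (q' - h').1 ∧ (q - h).1 - (q' - h').1 + LL k ≤ LL m - 1 ∧
      1 ≤ (q - h).2 - (q' - h').2 ∧ (q - h).2 - (q' - h').2 + LL k ≤ LL m - 1 := by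
  have e : P (-h') (P q' y) = P ((q' - h') - (q - h)) (P (-h) (P q y)) := by
    rw [← hP.add, ← hP.add, ← hP.add]
    congr 1
    abel
  have h3 := hS.2 m hkm ((q' - h') - (q - h)) (by rw [← e]; exact hS'.1)
  unfold ok at h3
  unfold inb at hh hh'
  rw [abs_le] at h1 h2
  simp only [Prod.fst_sub, Prod.snd_sub, Prod.fst_neg, Prod.snd_neg] at h3 ⊢
  generalize LL k = a at *
  generalize LL m = b at *
  omega

variable (P D v)

open Classical in
/-- level of a point -/
noncomputable def lev (x : X) : ℕ := sInf {k | x ∈ Ins P D v k}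

open Classical in
/-- position in the innermost box -/
noncomputable def pos (x : X) : ℤ × ℤ :=
  if h : x ∈ Ins P D v (lev P D v x) then h.choose else 0

variable {P D v}

theorem lev_le {x : X} {k : ℕ} (h : x ∈ Ins P D v k) : lev P D v x ≤ k := Nat.sInf_le h

theorem lev_mem {x : X} (h : ∃ k, x ∈ Ins P D v k) : x ∈ Ins P D v (lev P D v x) :=
  Nat.sInf_mem (s := {k | x ∈ Ins P D v k}) h

theorem pos_spec {x : X} (h : ∃ k, x ∈ Ins P D v k) :
    inb (lev P D v x) (pos P D v x) ∧ P (-(pos P D v x)) x ∈ Sur P D v (lev P D v x) := by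
  have h1 := lev_mem h
  have : pos P D v x = h1.choose := by
    unfold pos
    rw [dif_pos h1]
  rw [this]
  exact h1.choose_spec

/-- 0 or 1 -/
def bi (b : Bool) : ℤ := if b then 1 else 0

theorem bi_bd (a b : Bool) : |bi a - bi b| ≤ 1 := by
  revert a b
  decide

theorem pattern (hP : FreeBorel P) (hD : DSep P D) {y : X}
    (hy : ∀ i j : Bool, ∃ k, P (bi i, bi j) y ∈ Ins P D v k) :
    ∃ (k o : ℕ) (u w : Bool → Bool), k < o ∧ (∃ i, u i = true) ∧ (∃ j, w j = true) ∧
      ∀ i j : Bool, lev P D v (P (bi i, bi j) y) = if u i = true ∧ w j = true then k else o := by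
  classical
  -- minimal level
  obtain ⟨⟨i0, j0⟩, -, hmin⟩ := Finset.exists_min_image (Finset.univ : Finset (Bool × Bool))
    (fun p => lev P D v (P (bi p.1, bi p.2) y)) ⟨(true, true), Finset.mem_univ _⟩
  set k := lev P D v (P (bi i0, bi j0) y) with hk
  have hs0 := pos_spec (hy i0 j0)
  rw [← hk] at hs0
  set h0 := pos P D v (P (bi i0, bi j0) y) with hh0
  set c : ℤ × ℤ := (bi i0, bi j0) - h0 with hc
  let u : Bool → Bool := fun i => decide (0 ≤ bi i - c.1 ∧ bi i - c.1 < LL k)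
  let w : Bool → Bool := fun j => decide (0 ≤ bi j - c.2 ∧ bi j - c.2 < LL k)
  have hcS : P c y ∈ Sur P D v k := by
    have := hs0.2
    rwa [Pneg hP] at this
  -- cells of the box
  have hin : ∀ i j, u i = true → w j = true → lev P D v (P (bi i, bi j) y) = k := by
    intro i j hi hj
    simp only [u, w, decide_eq_true_eq] at hi hj
    refine le_antisymm (lev_le ⟨(bi i, bi j) - c, ⟨hi.1, hi.2, hj.1, hj.2⟩, ?_⟩)
      (hmin (i, j) (Finset.mem_univ _))
    rw [Pneg hP, sub_sub_cancel]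
    exact hcS
  -- other cells
  have hout : ∀ i j, ¬ (u i = true ∧ w j = true) → k < lev P D v (P (bi i, bi j) y) ∧
      1 ≤ c.1 - ((bi i, bi j) - pos P D v (P (bi i, bi j) y)).1 ∧
      c.1 - ((bi i, bi j) - pos P D v (P (bi i, bi j) y)).1 + LL k ≤
        LL (lev P D v (P (bi i, bi j) y)) - 1 ∧
      1 ≤ c.2 - ((bi i, bi j) - pos P D v (P (bi i, bi j) y)).2 ∧
      c.2 - ((bi i, bi j) - pos P D v (P (bi i, bi j) y)).2 + LL k ≤
        LL (lev P D v (P (bi i, bi j) y)) - 1 := by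
    intro i j hij
    have hs := pos_spec (hy i j)
    have hlt : k < lev P D v (P (bi i, bi j) y) := by
      refine lt_of_le_of_ne (hmin (i, j) (Finset.mem_univ _)) ?_
      intro he
      apply hij
      rw [← he] at hs
      have := same hP hD hs0.1 hs.1 hs0.2 hs.2 (bi_bd _ _) (bi_bd _ _)
      rw [← hc] at this
      have h1 := hs.1
      unfold inb at h1
      simp only [u, w, decide_eq_true_eq]
      rw [this]
      simp only [Prod.fst_sub, Prod.snd_sub]
      omega
    refine ⟨hlt, ?_⟩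
    exact nest hP hlt hs0.1 hs.1 hs0.2 hs.2 (bi_bd _ _) (bi_bd _ _)
  have hle : ∀ i j i' j', ¬ (u i = true ∧ w j = true) → ¬ (u i' = true ∧ w j' = true) →
      lev P D v (P (bi i', bi j') y) ≤ lev P D v (P (bi i, bi j) y) := by
    intro i j i' j' hij _
    obtain ⟨h1, h2, h3, h4, h5⟩ := hout i j hij
    have hs := pos_spec (hy i j)
    refine lev_le ⟨(bi i', bi j') - ((bi i, bi j) - pos P D v (P (bi i, bi j) y)), ?_, ?_⟩
    · have b1 := bi_bd i' i0
      have b2 := bi_bd j' j0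
      have b3 := hs0.1
      unfold inb at b3 ⊢
      have e1 : c.1 = bi i0 - h0.1 := rfl
      have e2 : c.2 = bi j0 - h0.2 := rfl
      rw [abs_le] at b1 b2
      simp only [Prod.fst_sub, Prod.snd_sub] at h2 h3 h4 h5 ⊢
      generalize LL k = a at *
      generalize LL (lev P D v (P (bi i, bi j) y)) = b at *
      omega
    · rw [Pneg hP, sub_sub_cancel, ← Pneg hP]
      exact hs.2
  have hu : ∃ i, u i = true := ⟨i0, by
    have := hs0.1
    unfold inb at this
    have e1 : c.1 = bi i0 - h0.1 := rfl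
    simp only [u, decide_eq_true_eq]
    omega⟩
  have hw : ∃ j, w j = true := ⟨j0, by
    have := hs0.1
    unfold inb at this
    have e1 : c.2 = bi j0 - h0.2 := rfl
    simp only [w, decide_eq_true_eq]
    omega⟩
  by_cases hall : ∀ i j, u i = true ∧ w j = true
  · refine ⟨k, k + 1, u, w, Nat.lt_succ_self k, hu, hw, fun i j => ?_⟩
    rw [if_pos (hall i j)]
    exact hin i j (hall i j).1 (hall i j).2
  · push Not at hall
    obtain ⟨i1, j1, h11⟩ := hall
    have h11' : ¬ (u i1 = true ∧ w j1 = true) := fun h => h11 h.1 h.2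
    refine ⟨k, lev P D v (P (bi i1, bi j1) y), u, w, (hout i1 j1 h11').1, hu, hw, fun i j => ?_⟩
    by_cases hij : u i = true ∧ w j = true
    · rw [if_pos hij]
      exact hin i j hij.1 hij.2
    · rw [if_neg hij]
      exact le_antisymm (hle i1 j1 i j h11' hij) (hle i j i1 j1 hij h11')

/-- parity of the position in the innermost box -/
noncomputable def par (P : ℤ × ℤ → X → X) (D : ℕ → Set X) (v : ℕ → ℤ × ℤ) (x : X) : Bool :=
  decide (((pos P D v x).1 + (pos P D v x).2) % 2 = 0)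

theorem par_step (hP : FreeBorel P) (hD : DSep P D) {y : X} {s : ℤ × ℤ}
    (hs : s = (1, 0) ∨ s = (0, 1)) (h1 : ∃ k, y ∈ Ins P D v k) (h2 : ∃ k, P s y ∈ Ins P D v k)
    (h : lev P D v (P s y) = lev P D v y) : par P D v (P s y) ≠ par P D v y := by
  have a1 := pos_spec h1
  have a2 := pos_spec h2
  rw [h] at a2
  have a3 : P (-(pos P D v y)) (P 0 y) ∈ Sur P D v (lev P D v y) := by
    rw [hP.zero]
    exact a1.2
  have h3 := same hP hD a1.1 a2.1 a3 a2.2 (by rcases hs with rfl | rfl <;> simp)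
    (by rcases hs with rfl | rfl <;> simp)
  unfold par
  intro h4
  rw [decide_eq_decide] at h4
  have e1 := congrArg Prod.fst h3
  have e2 := congrArg Prod.snd h3
  simp only [Prod.fst_sub, Prod.snd_sub, Prod.fst_zero, Prod.snd_zero] at e1 e2
  rcases hs with rfl | rfl
  · simp only at e1 e2 h4
    omega
  · simp only at e1 e2 h4
    omega

end

end Pool.Agent.U110
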