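import Pool.Agent.U110.IsoDir

/-!
# Graphs of free actions, charts
-/

set_option autoImplicit false

namespace Pool.Agent.U110.Iso

open Function
open Pool.Agent.W927 (Conf)

variable {d : ℕ}

/-- `G` is the graph of the free action `b`. -/
structure GA {W : Type} (b : (Fin d → ℤ) → W → W) (G : SimpleGraph W) : Prop where
  zero : ∀ x, b 0 x = x
  add : ∀ g h x, b (g + h) x = b g (b h x)
  free : ∀ g x, b g x = x → g = 0
  adj : ∀ x y, G.Adj x y ↔ ∃ s : Dir d, y = b (vec s) x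

/-- the grid -/
def GR (d : ℕ) : SimpleGraph (Fin d → ℤ) where
  Adj g h := ∃ s : Dir d, h = vec s + g
  symm := ⟨by
    rintro g h ⟨s, rfl⟩
    exact ⟨neg s, by rw [vec_neg]; abel⟩⟩
  loopless := ⟨by
    rintro g ⟨s, h⟩
    exact vec_ne s (by simpa using h)⟩

theorem GR_ga : GA (fun g h : Fin d → ℤ => g + h) (GR d) where
  zero x := zero_add x
  add g h x := add_assoc g h x
  free g x h := by simpa using h
  adj x y := Iff.rfl

section

variable {W : Type} {b : (Fin d → ℤ) → W → W} {G : SimpleGraph W}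

theorem GA.inj (ga : GA b G) {g h : Fin d → ℤ} {x : W} (e : b g x = b h x) : g = h := by
  have h1 : b (-h + g) x = x := by
    rw [ga.add, e, ← ga.add, neg_add_cancel, ga.zero]
  have h2 := ga.free _ _ h1
  rw [neg_add_eq_zero] at h2
  exact h2.symm

theorem GA.adj_iff (ga : GA b G) {g h : Fin d → ℤ} {x : W} :
    G.Adj (b g x) (b h x) ↔ ∃ s, h = vec s + g := by
  rw [ga.adj]
  constructor
  · rintro ⟨s, e⟩
    rw [← ga.add] at e
    exact ⟨s, ga.inj e⟩
  · rintro ⟨s, rfl⟩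
    exact ⟨s, ga.add _ _ _⟩

theorem GA.ball_eq (ga : GA b G) (r : ℕ) (x : W) :
    ball G r x = {u | ∃ g ∈ B d r, u = b g x} := by
  have h1 : ∀ {x u : W} (p : G.Walk x u), ∃ l : List (Dir d), l.length = p.length ∧
      u = b (S l) x := by
    intro x u p
    induction p with
    | nil => exact ⟨[], rfl, by rw [S_nil, ga.zero]⟩
    | cons h p ih =>
      obtain ⟨l, hl, hu⟩ := ih
      obtain ⟨s, hs⟩ := (ga.adj _ _).1 h
      refine ⟨s :: l, by simp [hl], ?_⟩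
      rw [S_cons, add_comm, ga.add, ← hs]
      exact hu
  have h2 : ∀ (l : List (Dir d)) (x u : W), u = b (S l) x → ∃ p : G.Walk x u,
      p.length = l.length := by
    intro l
    induction l with
    | nil =>
      intro x u hu
      rw [S_nil, ga.zero] at hu
      subst hu
      exact ⟨SimpleGraph.Walk.nil, rfl⟩
    | cons s l ih =>
      intro x u hu
      rw [S_cons, add_comm, ga.add] at hu
      obtain ⟨p, hp⟩ := ih _ _ hu
      exact ⟨SimpleGraph.Walk.cons ((ga.adj x (b (vec s) x)).2 ⟨s, rfl⟩) p, by simp [hp]⟩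
  ext u
  constructor
  · rintro ⟨p, hp⟩
    obtain ⟨l, hl, hu⟩ := h1 p
    exact ⟨S l, ⟨l, by omega, rfl⟩, hu⟩
  · rintro ⟨g, ⟨l, hl, rfl⟩, hu⟩
    obtain ⟨p, hp⟩ := h2 l x u hu
    exact ⟨p, by omega⟩

end

/-! ### the isotropic problem -/

section

variable {N k0 k : ℕ} (e : Fin k ≃ Fin N × (Dir d → Fin N) × Fin k0)

/-- local conditions -/
structure Cond (Q : Conf d (Fin k0) → Prop) (m : ℕ) (σ : Conf d (Fin k)) : Prop where
  dir : ∀ g ∈ B d (m + 1), ∀ s, (e (σ g)).2.1 s = (e (σ (g + vec s))).1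
  inj : ∀ g ∈ B d (m + 1), Injective (e (σ g)).2.1
  pat : Q fun g => (e (σ g)).2.2

/-- the isotropic problem -/
def prob (Q : Conf d (Fin k0) → Prop) (m : ℕ) : LCL where
  k := k
  r := m + 2
  P := {H | ∃ σ : Conf d (Fin k), Cond e Q m σ ∧ Looks (GR d) σ (m + 2) 0 H}

variable {W : Type} {b : (Fin d → ℤ) → W → W} {G : SimpleGraph W}

/-- chart at the point `x` -/
structure Chart (b : (Fin d → ℤ) → W → W) (f : W → Fin k) (r : ℕ) (x : W) (σ : Conf d (Fin k))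
    (ψ : (Fin d → ℤ) → W) : Prop where
  root : ψ 0 = x
  inj : ∀ g ∈ B d r, ∀ h ∈ B d r, ψ g = ψ h → g = h
  surj : ∀ g ∈ B d r, ∃ h ∈ B d r, ψ h = b g x
  adj : ∀ g ∈ B d r, ∀ h ∈ B d r, (∃ s, h = vec s + g) ↔ (∃ s, ψ h = b (vec s) (ψ g))
  lab : ∀ g ∈ B d r, f (ψ g) = σ g

theorem chart_of_sol (ga : GA b G) {Q : Conf d (Fin k0) → Prop} {m : ℕ} {f : W → Fin k}
    (hf : (prob e Q m).Sol G f) (x : W) :
    ∃ (σ : Conf d (Fin k)) (ψ : (Fin d → ℤ) → W), Cond e Q m σ ∧ Chart b f (m + 2) x σ ψ := by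
  classical
  obtain ⟨H, ⟨σ, hσ, φ1, h1a, h1r, h1l⟩, φ2, h2a, h2r, h2l⟩ := hf x
  have hb1 : ball (GR d) (m + 2) 0 = B d (m + 2) := by
    rw [GR_ga.ball_eq]
    ext u
    constructor
    · rintro ⟨g, hg, rfl⟩
      simpa using hg
    · intro hu
      exact ⟨u, hu, by simp⟩
  have hm : ∀ g, g ∈ B d (m + 2) → g ∈ ball (GR d) (m + 2) 0 := fun g hg => hb1 ▸ hg
  let ψ : (Fin d → ℤ) → W := fun g =>
    if h : g ∈ ball (GR d) (m + 2) 0 then (φ2 (φ1.symm ⟨g, h⟩)).1 else x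
  have hψ : ∀ g (h : g ∈ ball (GR d) (m + 2) 0), ψ g = (φ2 (φ1.symm ⟨g, h⟩)).1 :=
    fun g h => dif_pos h
  have h0 : (0 : Fin d → ℤ) ∈ ball (GR d) (m + 2) 0 := hm 0 (B_zero _)
  refine ⟨σ, ψ, hσ, ?_, ?_, ?_, ?_, ?_⟩
  · rw [hψ 0 h0]
    have : φ1.symm ⟨0, h0⟩ = H.root := by
      rw [Equiv.symm_apply_eq]
      exact Subtype.ext h1r.symm
    rw [this, h2r]
  · intro g hg h hh hgh
    rw [hψ g (hm g hg), hψ h (hm h hh)] at hgh
    have := φ1.symm.injective (φ2.injective (Subtype.ext hgh))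
    exact congrArg Subtype.val this
  · intro g hg
    have h3 : b g x ∈ ball G (m + 2) x := by
      rw [ga.ball_eq]
      exact ⟨g, hg, rfl⟩
    refine ⟨(φ1 (φ2.symm ⟨_, h3⟩)).1, ?_, ?_⟩
    · rw [← hb1]
      exact (φ1 (φ2.symm ⟨_, h3⟩)).2
    · rw [hψ _ (φ1 (φ2.symm ⟨_, h3⟩)).2]
      simp
  · intro g hg h hh
    rw [hψ g (hm g hg), hψ h (hm h hh), ← ga.adj, ← h2a, h1a]
    simp only [Equiv.apply_symm_apply]
    exact Iff.rfl
  · intro g hg
    rw [hψ g (hm g hg), h2l, ← h1l]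
    simp

theorem sol_of (ga : GA b G) {Q : Conf d (Fin k0) → Prop} {m : ℕ} {f : W → Fin k}
    (hf : ∀ x, Cond e Q m fun g => f (b g x)) : (prob e Q m).Sol G f := by
  classical
  intro x
  have hb1 : ball (GR d) (m + 2) 0 = B d (m + 2) := by
    rw [GR_ga.ball_eq]
    ext u
    constructor
    · rintro ⟨g, hg, rfl⟩
      simpa using hg
    · intro hu
      exact ⟨u, hu, by simp⟩
  have hfin : Finite (B d (m + 2)) := B_finite d (m + 2)
  obtain ⟨n, ⟨φ0⟩⟩ := Finite.exists_equiv_fin (B d (m + 2))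
  let H : LG k :=
    { n := n
      G := SimpleGraph.comap (fun i => (φ0.symm i).1) (GR d)
      root := φ0 ⟨0, B_zero _⟩
      lab := fun i => f (b (φ0.symm i).1 x) }
  refine ⟨H, ⟨fun g => f (b g x), hf x, φ0.symm.trans (Equiv.setCongr hb1.symm), ?_, ?_, ?_⟩, ?_⟩
  · intro i j
    exact Iff.rfl
  · show (φ0.symm (φ0 ⟨0, B_zero _⟩)).1 = 0
    simp
  · intro i
    rfl
  · let φ3 : B d (m + 2) → ball G (m + 2) x := fun g => ⟨b g.1 x, by
      rw [ga.ball_eq]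
      exact ⟨g.1, g.2, rfl⟩⟩
    have hbij : Bijective φ3 := by
      constructor
      · intro g h hgh
        exact Subtype.ext (ga.inj (congrArg Subtype.val hgh))
      · rintro ⟨u, hu⟩
        rw [ga.ball_eq] at hu
        obtain ⟨g, hg, rfl⟩ := hu
        exact ⟨⟨g, hg⟩, rfl⟩
    refine ⟨φ0.symm.trans (Equiv.ofBijective φ3 hbij), ?_, ?_, ?_⟩
    · intro i j
      exact ga.adj_iff.symm
    · show b (φ0.symm (φ0 ⟨0, B_zero _⟩)).1 x = x
      simp [ga.zero]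
    · intro i
      rfl

end

end Pool.Agent.U110.Iso
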