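import Pool.Agent.W927.Defs

/-!
# Locally checkable labelling problems on graphs, and the shift graph of `ℤ^d`
-/

set_option autoImplicit false

namespace Pool.Agent.U110.Iso

open MeasureTheory
open Pool.Agent.W927 (Conf shift FreePart)

/-- A finite rooted graph with vertex set `Fin n` whose vertices are labelled by `Fin k`. -/
structure LG (k : ℕ) where
  /-- number of vertices -/
  n : ℕ
  /-- the graph -/
  G : SimpleGraph (Fin n)
  /-- the root -/
  root : Fin n
  /-- the labelling -/
  lab : Fin n → Fin k

/-- The ball of radius `r` around the vertex `v`. -/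
def ball {V : Type} (G : SimpleGraph V) (r : ℕ) (v : V) : Set V :=
  {u | ∃ p : G.Walk v u, p.length ≤ r}

/-- The ball of radius `r` around `v` in `G` (induced subgraph), labelled by `f` and rooted at `v`,
is isomorphic to `H` as a rooted labelled graph. -/
def Looks {V : Type} {k : ℕ} (G : SimpleGraph V) (f : V → Fin k) (r : ℕ) (v : V) (H : LG k) :
    Prop :=
  ∃ φ : Fin H.n ≃ ball G r v, (∀ i j, H.G.Adj i j ↔ G.Adj (φ i).1 (φ j).1) ∧
    (φ H.root).1 = v ∧ ∀ i, f (φ i).1 = H.lab i

/-- A locally checkable labelling problem: number `k` of labels, radius `r`, and a set of (isomorphism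
types of) finite rooted labelled graphs. -/
structure LCL where
  /-- number of labels -/
  k : ℕ
  /-- radius -/
  r : ℕ
  /-- representatives of the allowed isomorphism types -/
  P : Set (LG k)

/-- `f` is a solution of the problem on the graph `G`. -/
def LCL.Sol (Q : LCL) {V : Type} (G : SimpleGraph V) (f : V → Fin Q.k) : Prop :=
  ∀ v, ∃ H ∈ Q.P, Looks G f Q.r v H

/-- The shift graph on the free part of `2^(ℤ^d)`: `x` and `y` are adjacent iff one of them is
`e_i • (the other one)` for some standard basis vector `e_i`. -/
def SG (d : ℕ) : SimpleGraph (FreePart d) :=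
  SimpleGraph.fromRel fun x y => ∃ i : Fin d, y.1 = shift (Pi.single i 1) x.1

/-- `Y` is invariant under the shift action. -/
def Inv {d : ℕ} (Y : Set (FreePart d)) : Prop :=
  ∀ (g : Fin d → ℤ) (x y : FreePart d), y.1 = shift g x.1 → x ∈ Y → y ∈ Y

/-- The shift graph has a Borel solution. -/
def BorelSol (d : ℕ) (Q : LCL) : Prop :=
  ∃ f : FreePart d → Fin Q.k, Measurable f ∧ Q.Sol (SG d) f

/-- The shift graph has a measurable solution: for every Borel probability measure there is a Borel
solution on some invariant conull Borel set. -/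
def MeasurableSol (d : ℕ) (Q : LCL) : Prop :=
  ∀ μ : Measure (FreePart d), IsProbabilityMeasure μ →
    ∃ Y : Set (FreePart d), MeasurableSet Y ∧ Inv Y ∧ μ Yᶜ = 0 ∧
      ∃ f : Y → Fin Q.k, Measurable f ∧ Q.Sol ((SG d).induce Y) f

/-- The shift graph has a Baire measurable solution: there is a Borel solution on some invariant
comeagre Borel set. -/
def BaireSol (d : ℕ) (Q : LCL) : Prop :=
  ∃ Y : Set (FreePart d), MeasurableSet Y ∧ Inv Y ∧ Y ∈ residual (FreePart d) ∧
    ∃ f : Y → Fin Q.k, Measurable f ∧ Q.Sol ((SG d).induce Y) f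

end Pool.Agent.U110.Iso
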