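import Pool.Agent.U110.IsoDef

/-!
# Directions and words
-/

set_option autoImplicit false

namespace Pool.Agent.U110.Iso

variable {d : ℕ}

/-- directions -/
abbrev Dir (d : ℕ) : Type := Fin d × Bool

/-- sign -/
def sg (b : Bool) : ℤ := if b then 1 else -1

/-- unit vector of a direction -/
def vec (s : Dir d) : Fin d → ℤ := Pi.single s.1 (sg s.2)

/-- opposite direction -/
def neg (s : Dir d) : Dir d := (s.1, !s.2)

theorem sg_not (b : Bool) : sg (!b) = - sg b := by cases b <;> rfl

theorem sg_ne (b : Bool) : sg b ≠ 0 := by cases b <;> simp [sg]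

theorem vec_apply (s : Dir d) (i : Fin d) : vec s i = if i = s.1 then sg s.2 else 0 := by
  unfold vec
  rw [Pi.single_apply]

theorem vec_neg (s : Dir d) : vec (neg s) = - vec s := by
  funext i
  rw [Pi.neg_apply, vec_apply, vec_apply]
  simp only [neg, sg_not]
  split_ifs <;> simp

theorem neg_neg' (s : Dir d) : neg (neg s) = s := by
  simp [neg]

theorem neg_ne (s : Dir d) : neg s ≠ s := by
  intro h
  have := congrArg Prod.snd h
  cases s with | mk a b => cases b <;> simp [neg] at this

theorem vec_ne (s : Dir d) : vec s ≠ 0 := by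
  intro h
  have := congrFun h s.1
  rw [vec_apply, if_pos rfl] at this
  exact sg_ne _ this

theorem vec_inj {s t : Dir d} (h : vec s = vec t) : s = t := by
  have h1 := congrFun h s.1
  rw [vec_apply, if_pos rfl, vec_apply] at h1
  by_cases h2 : s.1 = t.1
  · rw [if_pos h2] at h1
    refine Prod.ext h2 ?_
    revert h1
    cases s.2 <;> cases t.2 <;> simp [sg]
  · rw [if_neg h2] at h1
    exact absurd h1 (sg_ne _)

theorem vec_cancel {s t : Dir d} (h : vec s + vec t = 0) : t = neg s := by
  apply vec_inj
  rw [vec_neg]
  rw [add_comm] at h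
  exact eq_neg_of_add_eq_zero_left h

theorem quad {a a' b b' : Dir d} (h : vec a + vec b' = vec b + vec a') (hab : a ≠ b) :
    (a' = a ∧ b' = b) ∨ (b' = neg a ∧ a' = neg b) := by
  by_cases hb : b' = neg a
  · right
    refine ⟨hb, vec_cancel ?_⟩
    rw [← h, hb, vec_neg, add_neg_cancel]
  · left
    have ha : a' = a := by
      have h1 := congrFun h a.1
      simp only [Pi.add_apply, vec_apply, if_true] at h1
      by_cases e1 : a.1 = b'.1
      · have e2 : b'.2 = a.2 := by
          by_contra hne
          apply hb
          refine Prod.ext e1.symm ?_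
          show b'.2 = !a.2
          cases h3 : b'.2 <;> cases h4 : a.2 <;> simp_all
        by_cases e3 : a.1 = b.1
        · have e4 : b.2 = !a.2 := by
            have : a.2 ≠ b.2 := fun h' => hab (Prod.ext e3 h')
            cases h3 : b.2 <;> cases h4 : a.2 <;> simp_all
          rw [if_pos e1, if_pos e3, e2, e4, sg_not] at h1
          by_cases e5 : a.1 = a'.1
          · rw [if_pos e5] at h1
            refine Prod.ext e5.symm ?_
            revert h1
            cases a.2 <;> cases a'.2 <;> simp [sg]
          · rw [if_neg e5] at h1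
            revert h1
            cases a.2 <;> simp [sg]
        · rw [if_pos e1, if_neg e3, e2] at h1
          by_cases e5 : a.1 = a'.1
          · rw [if_pos e5] at h1
            refine Prod.ext e5.symm ?_
            revert h1
            cases a.2 <;> cases a'.2 <;> simp [sg]
          · rw [if_neg e5] at h1
            revert h1
            cases a.2 <;> simp [sg]
      · by_cases e3 : a.1 = b.1
        · have e4 : b.2 = !a.2 := by
            have : a.2 ≠ b.2 := fun h' => hab (Prod.ext e3 h')
            cases h3 : b.2 <;> cases h4 : a.2 <;> simp_all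
          rw [if_neg e1, if_pos e3, e4, sg_not] at h1
          by_cases e5 : a.1 = a'.1
          · rw [if_pos e5] at h1
            refine Prod.ext e5.symm ?_
            revert h1
            cases a.2 <;> cases a'.2 <;> simp [sg]
          · rw [if_neg e5] at h1
            revert h1
            cases a.2 <;> simp [sg]
        · rw [if_neg e1, if_neg e3] at h1
          by_cases e5 : a.1 = a'.1
          · rw [if_pos e5] at h1
            refine Prod.ext e5.symm ?_
            revert h1
            cases a.2 <;> cases a'.2 <;> simp [sg]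
          · rw [if_neg e5] at h1
            revert h1
            cases a.2 <;> simp [sg]
    refine ⟨ha, ?_⟩
    rw [ha, add_comm (vec b)] at h
    exact vec_inj (add_left_cancel h)

/-! ### words -/

/-- endpoint of a word -/
def S (l : List (Dir d)) : Fin d → ℤ := (l.map vec).sum

theorem S_nil : S ([] : List (Dir d)) = 0 := rfl

theorem S_cons (s : Dir d) (l : List (Dir d)) : S (s :: l) = vec s + S l := by
  simp [S]

theorem S_append (l m : List (Dir d)) : S (l ++ m) = S l + S m := by
  simp [S]

theorem S_neg (l : List (Dir d)) : S (l.map neg) = - S l := by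
  induction l with
  | nil => simp [S_nil]
  | cons s l ih =>
    rw [List.map_cons, S_cons, S_cons, ih, vec_neg]
    abel

theorem exists_word (g : Fin d → ℤ) : ∃ l, S l = g := by
  let H : AddSubgroup (Fin d → ℤ) :=
    { carrier := {g | ∃ l, S l = g}
      zero_mem' := ⟨[], rfl⟩
      add_mem' := by
        rintro a b ⟨l, rfl⟩ ⟨m, rfl⟩
        exact ⟨l ++ m, S_append l m⟩
      neg_mem' := by
        rintro a ⟨l, rfl⟩
        exact ⟨l.map neg, S_neg l⟩ }
  have h1 : ∀ i : Fin d, (Pi.single i 1 : Fin d → ℤ) ∈ H := by
    intro i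
    refine ⟨[(i, true)], ?_⟩
    rw [S_cons, S_nil, add_zero]
    rfl
  have h2 : g = ∑ i, g i • (Pi.single i 1 : Fin d → ℤ) := by
    funext j
    simp [Finset.sum_apply, Pi.single_apply]
  have h3 : g ∈ H := by
    rw [h2]
    exact H.sum_mem fun i _ => H.zsmul_mem (h1 i) _
  exact h3

/-- ball of words -/
def B (d r : ℕ) : Set (Fin d → ℤ) := {g | ∃ l : List (Dir d), l.length ≤ r ∧ S l = g}

theorem B_finite (d r : ℕ) : (B d r).Finite := by
  have h : (B d r) ⊆ S '' {l : List (Dir d) | l.length ≤ r} := by
    rintro g ⟨l, hl, rfl⟩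
    exact ⟨l, hl, rfl⟩
  exact ((List.finite_length_le (Dir d) r).image _).subset h

theorem B_mono {r r' : ℕ} (h : r ≤ r') : B d r ⊆ B d r' := by
  rintro g ⟨l, hl, rfl⟩
  exact ⟨l, hl.trans h, rfl⟩

theorem B_zero (r : ℕ) : (0 : Fin d → ℤ) ∈ B d r := ⟨[], Nat.zero_le _, rfl⟩

theorem B_step {r : ℕ} {g : Fin d → ℤ} (hg : g ∈ B d r) (s : Dir d) : g + vec s ∈ B d (r + 1) := by
  obtain ⟨l, hl, rfl⟩ := hg
  refine ⟨s :: l, by simpa using hl, ?_⟩
  rw [S_cons, add_comm]

theorem B_of_finset (W : Finset (Fin d → ℤ)) : ∃ r, ∀ w ∈ W, w ∈ B d r := by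
  choose l hl using fun g : Fin d → ℤ => exists_word g
  refine ⟨∑ w ∈ W, (l w).length, fun w hw => ⟨l w, ?_, hl w⟩⟩
  exact Finset.single_le_sum (f := fun w => (l w).length) (fun _ _ => Nat.zero_le _) hw

end Pool.Agent.U110.Iso
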