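import Pool.Agent.U110.IsoPos
import Pool.Agent.U110.GenNeg

/-!
# Negative parts for the isotropic problems
-/

set_option autoImplicit false

namespace Pool.Agent.U110.Iso

open Set MeasureTheory Function Filter
open Pool.Agent.W927 (Conf shift FreePart HL VL ML RuleB TT codeF measurable_codeF code_shift
  exists_alpha Gen gen_exists localize syndetic gen_orbit cfg Walls Cols okV)
open Pool.Agent.W927.BM (emb Rule FreeBorel Rule_congr circle_neg)
open Pool.Agent.U110 (act act_free actH cont_act)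

variable {d : ℕ}

/-- twisted rotation numbers -/
def tal (α : Fin d → TT) (τ0 : Dir d → Dir d) (i : Fin d) : TT :=
  Pool.Agent.W927.lin α (vec (τ0 (i, true)))

theorem lin_tal (α : Fin d → TT) (τ0 : Dir d → Dir d) (g : Fin d → ℤ) :
    Pool.Agent.W927.lin (tal α τ0) g = Pool.Agent.W927.lin α (lin τ0 g) := by
  show ∑ i, g i • Pool.Agent.W927.lin α (vec (τ0 (i, true))) =
    Pool.Agent.W927.lin α (∑ i, g i • vec (τ0 (i, true)))
  rw [map_sum]
  refine Finset.sum_congr rfl fun i _ => ?_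
  rw [map_zsmul]

theorem tal_free {α : Fin d → TT}
    (hα : ∀ g : Fin d → ℤ, g ≠ 0 → addOrderOf (Pool.Agent.W927.lin α g) = 0)
    {τ0 : Dir d → Dir d} (ho : Odd' τ0) (hi : Injective τ0) (g : Fin d → ℤ) (hg : g ≠ 0) :
    addOrderOf (Pool.Agent.W927.lin (tal α τ0) g) = 0 := by
  rw [lin_tal]
  exact hα _ fun h => hg (lin_inj ho hi h)

section

variable {α : Fin d → TT}
  (hα : ∀ g : Fin d → ℤ, g ≠ 0 → addOrderOf (Pool.Agent.W927.lin α g) = 0)

theorem codeF_add (θ : TT) (g : Fin d → ℤ) :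
    codeF hα (θ + Pool.Agent.W927.lin α g) = act g (codeF hα θ) :=
  Subtype.ext (code_shift α θ g)

variable {N k0 k : ℕ} (e : Fin k ≃ Fin N × (Dir d → Fin N) × Fin k0)
variable {Y : Set (FreePart d)} (hY : Inv Y) {Q : Conf d (Fin k0) → Prop} {f : Y → Fin k}
variable {τ : Y → Dir d → Dir d} {L : Type} (e' : Fin k0 ≃ L) (l0 : L)

/-- points of the circle with a given twist -/
def Th (τ : Y → Dir d → Dir d) (τ0 : Dir d → Dir d) : Set TT :=
  {θ | ∃ h : codeF hα θ ∈ Y, τ ⟨codeF hα θ, h⟩ = τ0}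

open Classical in
/-- the label -/
noncomputable def fc (f : Y → Fin k) (θ : TT) : L :=
  if h : codeF hα θ ∈ Y then e' (e (f ⟨codeF hα θ, h⟩)).2.2 else l0

theorem meas_pull {Z : Set Y} (hYm : MeasurableSet Y) (hZ : MeasurableSet Z) :
    MeasurableSet {θ | ∃ h : codeF hα θ ∈ Y, (⟨codeF hα θ, h⟩ : Y) ∈ Z} := by
  have h1 : MeasurableSet (Subtype.val '' Z) := hYm.subtype_image hZ
  have h2 := (measurable_codeF hα) h1
  convert h2 using 1
  ext θ
  constructor
  · rintro ⟨h, hz⟩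
    exact ⟨_, hz, rfl⟩
  · rintro ⟨z, hz, hzθ⟩
    have h3 : codeF hα θ ∈ Y := hzθ ▸ z.2
    refine ⟨h3, ?_⟩
    have : (⟨codeF hα θ, h3⟩ : Y) = z := Subtype.ext hzθ.symm
    rw [this]
    exact hz

variable (tw : Tw e (actY hY) Q f τ)
include tw

theorem Th_meas (hYm : MeasurableSet Y) (hf : Measurable f) (τ0 : Dir d → Dir d) :
    MeasurableSet (Th hα τ τ0) := by
  have hact : ∀ g, Measurable (actY hY g) := fun g =>
    Measurable.subtype_mk ((act_free.meas g).comp measurable_subtype_coe)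
  have hZ : MeasurableSet {x : Y | τ x = τ0} := by
    have : {x : Y | τ x = τ0} =
        ⋂ s : Dir d, {x | (e (f (actY hY (vec (τ0 s)) x))).1 = (e (f x)).2.1 s} := by
      ext x
      simp only [mem_iInter, mem_ofPred_eq]
      constructor
      · intro h s
        rw [tw.iff, h]
      · intro h
        funext s
        have := h s
        rw [tw.iff] at this
        exact this.symm
    rw [this]
    refine MeasurableSet.iInter fun s => ?_
    have h1 : Measurable fun x : Y => (f (actY hY (vec (τ0 s)) x), f x) :=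
      (hf.comp (hact _)).prodMk hf
    have h2 : MeasurableSet {p : Fin k × Fin k | (e p.1).1 = (e p.2).2.1 s} :=
      (Set.to_countable _).measurableSet
    exact h1 h2
  exact meas_pull hα hYm hZ

theorem Th_inv {τ0 : Dir d → Dir d} {θ : TT} (hθ : θ ∈ Th hα τ τ0) (g : Fin d → ℤ) :
    θ + Pool.Agent.W927.lin α g ∈ Th hα τ τ0 := by
  obtain ⟨h, h1⟩ := hθ
  have h2 : codeF hα (θ + Pool.Agent.W927.lin α g) ∈ Y := by
    rw [codeF_add]
    exact hY g _ _ rfl h
  refine ⟨h2, ?_⟩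
  have : (⟨codeF hα (θ + Pool.Agent.W927.lin α g), h2⟩ : Y) = actY hY g ⟨codeF hα θ, h⟩ :=
    Subtype.ext (codeF_add hα θ g)
  rw [this, tw.inv, h1]

theorem Th_iff (τ0 : Dir d → Dir d) (θ : TT) (g : Fin d → ℤ) :
    θ + Pool.Agent.W927.lin α g ∈ Th hα τ τ0 ↔ θ ∈ Th hα τ τ0 := by
  refine ⟨fun h => ?_, fun h => Th_inv hα e hY tw h g⟩
  have := Th_inv hα e hY tw h (-g)
  rwa [map_neg, add_neg_cancel_right] at this

omit tw in
theorem fc_meas (hYm : MeasurableSet Y) (hf : Measurable f) (l : L) :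
    MeasurableSet {θ | fc hα e e' l0 f θ = l} := by
  have h1 : MeasurableSet {x : Y | e' (e (f x)).2.2 = l} :=
    hf (Set.to_countable {p : Fin k | e' (e p).2.2 = l}).measurableSet
  have h2 := meas_pull hα hYm h1
  have h3 : MeasurableSet (codeF hα ⁻¹' Yᶜ) := measurable_codeF hα hYm.compl
  have : {θ | fc hα e e' l0 f θ = l} =
      {θ | ∃ h : codeF hα θ ∈ Y, (⟨codeF hα θ, h⟩ : Y) ∈ {x : Y | e' (e (f x)).2.2 = l}} ∪
        (codeF hα ⁻¹' Yᶜ ∩ {_θ | l0 = l}) := by
    ext θ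
    simp only [mem_ofPred_eq, mem_union, mem_inter_iff, mem_preimage, mem_compl_iff]
    by_cases h : codeF hα θ ∈ Y
    · have : fc hα e e' l0 f θ = e' (e (f ⟨codeF hα θ, h⟩)).2.2 := dif_pos h
      rw [this]
      constructor
      · intro h'; exact Or.inl ⟨h, h'⟩
      · rintro (⟨_, h'⟩ | ⟨h', -⟩)
        · exact h'
        · exact absurd h h'
    · have : fc hα e e' l0 f θ = l0 := dif_neg h
      rw [this]
      constructor
      · intro h'; exact Or.inr ⟨h, h'⟩
      · rintro (⟨h', -⟩ | ⟨-, h'⟩)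
        · exact absurd h' h
        · exact h'
  rw [this]
  exact h2.union (h3.inter (MeasurableSet.const _))

theorem Th_rule {τ0 : Dir d → Dir d} {θ : TT} (hθ : θ ∈ Th hα τ τ0) :
    Q fun g => e'.symm (fc hα e e' l0 f (θ + Pool.Agent.W927.lin α (lin τ0 g))) := by
  obtain ⟨h, h1⟩ := hθ
  have h2 := tw.pat ⟨codeF hα θ, h⟩
  rw [h1] at h2
  convert h2 using 2 with g
  have h3 : codeF hα (θ + Pool.Agent.W927.lin α (lin τ0 g)) ∈ Y := by
    rw [codeF_add]
    exact hY _ _ _ rfl h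
  have h4 : fc hα e e' l0 f (θ + Pool.Agent.W927.lin α (lin τ0 g)) =
      e' (e (f ⟨codeF hα (θ + Pool.Agent.W927.lin α (lin τ0 g)), h3⟩)).2.2 := dif_pos h3
  rw [h4, Equiv.symm_apply_apply]
  have : (⟨codeF hα (θ + Pool.Agent.W927.lin α (lin τ0 g)), h3⟩ : Y) =
      actY hY (lin τ0 g) ⟨codeF hα θ, h⟩ := Subtype.ext (codeF_add hα θ _)
  rw [this]

theorem Th_props {τ0 : Dir d → Dir d} (hne : (Th hα τ τ0).Nonempty) : Odd' τ0 ∧ Injective τ0 := by
  obtain ⟨θ, h, h1⟩ := hne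
  rw [← h1]
  exact ⟨tw.odd _, tw.inj _⟩

omit tw in
theorem Th_cover {θ : TT} (h : codeF hα θ ∈ Y) : ∃ τ0, θ ∈ Th hα τ τ0 := ⟨_, h, rfl⟩

/-- some twist has full measure -/
theorem exists_full (hd : 0 < d) (hYm : MeasurableSet Y) (hf : Measurable f)
    (hfull : (volume : Measure TT) (codeF hα ⁻¹' Y)ᶜ = 0) :
    ∃ τ0, ∀ᵐ θ : TT, θ ∈ Th hα τ τ0 := by
  have hne : ∃ τ0, volume (Th hα τ τ0) ≠ 0 := by
    by_contra hcon
    push Not at hcon
    have h1 : codeF hα ⁻¹' Y ⊆ ⋃ τ0, Th hα τ τ0 := fun θ hθ => by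
      obtain ⟨τ0, h⟩ := Th_cover hα (τ := τ) hθ
      exact mem_iUnion.2 ⟨τ0, h⟩
    have h2 : volume (codeF hα ⁻¹' Y) = 0 := measure_mono_null h1 (measure_iUnion_null hcon)
    have h3 : volume (univ : Set TT) = 0 := by
      rw [← union_compl_self (codeF hα ⁻¹' Y)]
      exact measure_union_null h2 hfull
    simp at h3
  obtain ⟨τ0, h0⟩ := hne
  refine ⟨τ0, ?_⟩
  let g0 : Fin d → ℤ := Pi.single ⟨0, hd⟩ 1
  have hg0 : g0 ≠ 0 := by
    intro h
    have := congrFun h ⟨0, hd⟩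
    simp [g0] at this
  have herg : Ergodic (fun x : TT => x + Pool.Agent.W927.lin α g0) volume :=
    AddCircle.ergodic_add_right.2 (hα g0 hg0)
  have hinv : (fun x : TT => x + Pool.Agent.W927.lin α g0) ⁻¹' (Th hα τ τ0) = Th hα τ τ0 := by
    ext θ
    exact Th_iff hα e hY tw τ0 θ g0
  have hm := Th_meas hα e hY tw hYm hf τ0
  rcases herg.toPreErgodic.ae_empty_or_univ hm hinv with h | h
  · exact absurd (ae_eq_empty.1 h) h0
  · exact eventuallyEq_univ.1 h

/-- some twist is generic -/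
theorem exists_gen (hd : 0 < d) (hYm : MeasurableSet Y) (hf : Measurable f)
    (hfull : ∀ θ, codeF hα θ ∈ Y) : ∃ τ0, Gen fun θ => θ ∈ Th hα τ τ0 := by
  have hne : ∃ τ0, ¬ IsMeagre (Th hα τ τ0) := by
    by_contra hcon
    push Not at hcon
    apply Pool.Agent.W927.not_meagre_univ
    have h1 : (univ : Set TT) ⊆ ⋃ τ0, Th hα τ τ0 := fun θ _ => by
      obtain ⟨τ0, h⟩ := Th_cover hα (τ := τ) (hfull θ)
      exact mem_iUnion.2 ⟨τ0, h⟩
    exact (isMeagre_iUnion hcon).mono h1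
  obtain ⟨τ0, h0⟩ := hne
  refine ⟨τ0, ?_⟩
  let g0 : Fin d → ℤ := Pi.single ⟨0, hd⟩ 1
  have hg0 : g0 ≠ 0 := by
    intro h
    have := congrFun h ⟨0, hd⟩
    simp [g0] at this
  obtain ⟨O, hO, hOne, hg⟩ := localize (Th_meas hα e hY tw hYm hf τ0) h0
  obtain ⟨K, hK⟩ := syndetic hO hOne (hα g0 hg0)
  filter_upwards [gen_orbit hg (Pool.Agent.W927.lin α g0) 0] with θ hθ
  obtain ⟨n, -, hn⟩ := hK θ
  have h1 := hθ n 0
  simp only [smul_zero, add_zero, natCast_zsmul] at h1
  have h2 := h1 hn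
  rw [← map_nsmul] at h2
  exact (Th_iff hα e hY tw τ0 θ _).1 h2

end

section A

variable {k0 k : ℕ} (e : Fin k ≃ Fin ((DF d).card + 1) × (Dir d → Fin ((DF d).card + 1)) × Fin k0)
variable (hd : 2 ≤ d) (e' : Fin k0 ≃ Pool.Agent.W927.BM.Lab)

include hd in
theorem contra_A {α : Fin d → TT}
    (hα : ∀ g : Fin d → ℤ, g ≠ 0 → addOrderOf (Pool.Agent.W927.lin α g) = 0)
    {Y : Set (FreePart d)} (hYm : MeasurableSet Y) (hY : Inv Y)
    (hnull : (volume : Measure TT) (codeF hα ⁻¹' Y)ᶜ = 0) {f : Y → Fin k} (hf : Measurable f)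
    {τ : Y → Dir d → Dir d} (tw : Tw e (actY hY) (QA hd e') f τ) : False := by
  obtain ⟨τ0, h0⟩ := exists_full hα e hY tw (by omega) hYm hf hnull
  have hne : (Th hα τ τ0).Nonempty := h0.exists
  obtain ⟨ho, hi⟩ := Th_props hα e hY tw hne
  let l0 : Pool.Agent.W927.BM.Lab := Pool.Agent.W927.BM.chk false
  refine circle_neg hd (tal_free hα ho hi) ⟨fc hα e e' l0 f, ?_, ?_⟩
  · intro l
    exact (fc_meas hα e e' l0 hYm hf l).nullMeasurableSet
  · filter_upwards [h0] with θ hθ t x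
    have h1 := Th_inv hα e hY tw hθ (lin τ0 (emb hd t x))
    have h2 := Th_rule hα e hY e' l0 tw h1
    unfold QA at h2
    simp only [Equiv.apply_symm_apply] at h2
    refine Rule_congr (t := 0) (x := 0) (t' := t) (x' := x) ?_ h2
    intro s z _ _
    rw [lin_tal, zero_add, zero_add, Pool.Agent.W927.BM.emb_add, map_add, map_add]
    congr 1
    abel

theorem QA_congr (s s' : Conf d (Fin k0))
    (h : ∀ w ∈ (Pool.Agent.W927.BM.winN hd : Set (Fin d → ℤ)), s w = s' w) (hR : QA hd e' s) :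
    QA hd e' s' := by
  refine Rule_congr ?_ hR
  intro t x ht hx
  rw [zero_add, zero_add, h _ (Pool.Agent.W927.BM.mem_winN hd ht hx)]

theorem not_measurable_A {m : ℕ} (hm : ∀ w ∈ Pool.Agent.W927.BM.winN hd, w ∈ B d (m + 2)) :
    ¬ MeasurableSol d (prob e (QA hd e') m) := by
  intro H
  obtain ⟨α, hα⟩ := exists_alpha d
  have hprob : IsProbabilityMeasure (volume : Measure TT) := ⟨by simp⟩
  obtain ⟨Y, hYm, hY, hnull, f, hf, hsol⟩ := H (Measure.map (codeF hα) volume)
    (Measure.isProbabilityMeasure_map (measurable_codeF hα).aemeasurable)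
  rw [Measure.map_apply (measurable_codeF hα) hYm.compl] at hnull
  obtain ⟨τ, tw⟩ := exists_twist e (ga_Y hY) (fun x => chart_of_sol e (ga_Y hY) hsol x)
    (Pool.Agent.W927.BM.winN hd) hm (QA_congr hd e')
  exact contra_A e hd e' hα hYm hY hnull hf tw

theorem not_borel_A {m : ℕ} (hm : ∀ w ∈ Pool.Agent.W927.BM.winN hd, w ∈ B d (m + 2)) :
    ¬ BorelSol d (prob e (QA hd e') m) := by
  rintro ⟨f, hf, hsol⟩
  obtain ⟨α, hα⟩ := exists_alpha d
  obtain ⟨τ, tw0⟩ := exists_twist e ga_SG (fun x => chart_of_sol e ga_SG hsol x)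
    (Pool.Agent.W927.BM.winN hd) hm (QA_congr hd e')
  have hY : Inv (univ : Set (FreePart d)) := fun _ _ _ _ _ => mem_univ _
  have tw : Tw e (actY hY) (QA hd e') (fun x => f x.1) (fun x => τ x.1) :=
    ⟨fun x => tw0.iff x.1, fun g x => tw0.inv g x.1, fun x => tw0.odd x.1, fun x => tw0.inj x.1,
      fun x => tw0.pat x.1⟩
  have hf' : Measurable fun x : (univ : Set (FreePart d)) => f x.1 := hf.comp measurable_subtype_coe
  exact contra_A e hd e' hα MeasurableSet.univ hY (by simp) hf' tw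

end A

section B

variable {k0 k : ℕ} (e : Fin k ≃ Fin ((DF d).card + 1) × (Dir d → Fin ((DF d).card + 1)) × Fin k0)
variable (e' : Fin k0 ≃ Pool.Agent.W927.Lab)

theorem not_borel_B (hd : 0 < d) {e0 e1 : Fin d → ℤ} (h0 : e0 ≠ 0) (h1 : e1 ≠ 0) {m : ℕ}
    (hm : ∀ w ∈ ({0, -e0, -e1} : Set (Fin d → ℤ)), w ∈ B d (m + 2)) :
    ¬ BorelSol d (prob e (QB e' e0 e1) m) := by
  rintro ⟨f, hf, hsol⟩
  obtain ⟨α, hα⟩ := exists_alpha d
  obtain ⟨τ, tw0⟩ := exists_twist e ga_SG (fun x => chart_of_sol e ga_SG hsol x)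
    ({0, -e0, -e1} : Set (Fin d → ℤ)) hm (by
      intro s s' h
      have a0 := h 0 (by simp)
      have a1 := h (-e0) (by simp)
      have a2 := h (-e1) (by simp)
      unfold QB RuleB
      simp only [a0, a1, a2]
      exact id)
  have hY : Inv (univ : Set (FreePart d)) := fun _ _ _ _ _ => mem_univ _
  have tw : Tw e (actY hY) (QB e' e0 e1) (fun x => f x.1) (fun x => τ x.1) :=
    ⟨fun x => tw0.iff x.1, fun g x => tw0.inv g x.1, fun x => tw0.odd x.1, fun x => tw0.inj x.1,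
      fun x => tw0.pat x.1⟩
  have hf' : Measurable fun x : (univ : Set (FreePart d)) => f x.1 := hf.comp measurable_subtype_coe
  obtain ⟨τ0, hg⟩ := exists_gen hα e hY tw hd MeasurableSet.univ hf' (fun _ => mem_univ _)
  obtain ⟨θ0, -, hθ0⟩ := gen_exists isOpen_univ univ_nonempty hg
  obtain ⟨ho, hi⟩ := Th_props hα e hY tw ⟨θ0, hθ0⟩
  let l0 : Pool.Agent.W927.Lab := (.n, .n, false, .n)
  set F := fc hα e e' l0 (fun x : (univ : Set (FreePart d)) => f x.1) with hF
  have hFm : ∀ A : Set Pool.Agent.W927.Lab, MeasurableSet {θ | F θ ∈ A} := by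
    intro A
    have : {θ | F θ ∈ A} = ⋃ l ∈ A, {θ | F θ = l} := by
      ext θ
      simp
    rw [this]
    exact MeasurableSet.biUnion (Set.to_countable _) fun l _ =>
      fc_meas hα e e' l0 MeasurableSet.univ hf' l
  set u : TT := Pool.Agent.W927.lin α (lin τ0 e0) with hu
  set v : TT := Pool.Agent.W927.lin α (lin τ0 e1) with hv
  have hru : ∀ θ ∈ Th hα (fun x : (univ : Set (FreePart d)) => τ x.1) τ0, ∀ i j : ℤ,
      RuleB e0 e1 fun h => F (θ + i • u + j • v + Pool.Agent.W927.lin α (lin τ0 h)) := by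
    intro θ hθ i j
    have h2 := Th_inv hα e hY tw (Th_inv hα e hY tw hθ (lin τ0 (i • e0))) (lin τ0 (j • e1))
    have h3 := Th_rule hα e hY e' l0 tw h2
    unfold QB at h3
    simp only [Equiv.apply_symm_apply] at h3
    rw [map_zsmul, map_zsmul, map_zsmul, map_zsmul] at h3
    exact h3
  have s0 : ∀ (x : TT) (i j : ℤ), x + i • u + j • v + Pool.Agent.W927.lin α (lin τ0 (-e0)) =
      x + (i - 1) • u + j • v := by
    intro x i j
    rw [map_neg, map_neg, sub_smul, one_smul]; abel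
  have s1 : ∀ (x : TT) (i j : ℤ), x + i • u + j • v + Pool.Agent.W927.lin α (lin τ0 (-e1)) =
      x + i • u + (j - 1) • v := by
    intro x i j
    rw [map_neg, map_neg, sub_smul, one_smul]; abel
  refine no_gen_labelling (u := u) (v := v) (H := fun θ => (F θ).1) (V := fun θ => (F θ).2.1)
    (C := fun θ => (F θ).2.2.1) ?_ ?_ (fun c => hFm {l | l.1 = c}) (fun c => hFm {l | l.2.1 = c})
    (fun c => hFm {l | l.2.2.1 = c}) ?_ ?_
  · exact hα _ fun h => h0 (lin_inj ho hi h)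
  · exact hα _ fun h => h1 (lin_inj ho hi h)
  · filter_upwards [hg] with θ hθ i j
    have := (hru θ hθ i j).1
    simpa only [s0, s1, map_zero, add_zero, cfg] using this
  · filter_upwards [hg] with θ hθ
    constructor
    · intro i j
      have := (hru θ hθ i j).2.1
      simpa only [s0, s1, map_zero, add_zero, cfg] using this
    · intro i j
      have := (hru θ hθ i j).2.2
      simpa only [s0, s1, map_zero, add_zero, cfg] using this

end B

end Pool.Agent.U110.Iso
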