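import Pool.Agent.U110.Rect

/-!
# Two subshifts of finite type
-/

set_option autoImplicit false

namespace Pool.Agent.U110

open Set MeasureTheory Topology
open Pool.Agent.W927 (Conf shift FreePart IsSFT IsEquivMap HasBorel HasBaire HasMeasure
  isSFT_of_window lin exists_alpha codeF measurable_codeF HL VL ML okV SB isSFT_SB SB_not_borel TT
  RuleB)
open Pool.Agent.W927.BM (FreeBorel exists_cocycle emb PBM PBM_iff PBM_inBaire Rule Rule_congr
  winN mem_winN emb_add emb_zero emb_eq_zero circle_neg)

section free

variable {d : ℕ}

theorem shift_add {A : Type*} (g h : Fin d → ℤ) (x : Conf d A) :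
    shift (g + h) x = shift g (shift h x) := by
  funext k
  show x (k + (g + h)) = x (k + g + h)
  rw [add_assoc]

theorem shift_zero {A : Type*} (x : Conf d A) : shift 0 x = x := by
  funext k
  show x (k + 0) = x k
  rw [add_zero]

theorem free_inv {x : Conf d Bool} (hx : ∀ g : Fin d → ℤ, g ≠ 0 → shift g x ≠ x)
    (h g : Fin d → ℤ) (hg : g ≠ 0) : shift g (shift h x) ≠ shift h x := by
  intro e
  apply hx g hg
  have e2 := congrArg (shift (-h)) e
  rw [← shift_add, ← shift_add, ← shift_add, neg_add_cancel, shift_zero] at e2
  rw [← e2]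
  congr 1
  abel

/-- the shift action on the free part -/
def act (g : Fin d → ℤ) (x : FreePart d) : FreePart d := ⟨shift g x.1, free_inv x.2 g⟩

theorem cont_shift (g : Fin d → ℤ) : Continuous (shift (A := Bool) g) :=
  continuous_pi fun h => continuous_apply (h + g)

theorem cont_act (g : Fin d → ℤ) : Continuous (act g) :=
  ((cont_shift g).comp continuous_subtype_val).subtype_mk _

theorem act_free : FreeBorel (act (d := d)) where
  zero x := Subtype.ext (shift_zero _)
  add g h x := Subtype.ext (shift_add _ _ _)
  meas g := (cont_act g).measurable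
  free g x h := by
    by_contra hg
    exact x.2 g hg (congrArg Subtype.val h)

/-- the action by homeomorphisms -/
def actH (g : Fin d → ℤ) : FreePart d ≃ₜ FreePart d where
  toFun := act g
  invFun := act (-g)
  left_inv x := by rw [← act_free.add, neg_add_cancel, act_free.zero]
  right_inv x := by rw [← act_free.add, add_neg_cancel, act_free.zero]
  continuous_toFun := cont_act g
  continuous_invFun := cont_act (-g)

theorem isOpen_ne (g : Fin d → ℤ) : IsOpen {x : Conf d Bool | shift g x ≠ x} :=
  isOpen_ne_fun (cont_shift g) continuous_id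

instance polish_conf : PolishSpace (Conf d Bool) := by
  have : TopologicalSpace.IsCompletelyMetrizableSpace Bool := inferInstance
  have : TopologicalSpace.IsCompletelyMetrizableSpace ((Fin d → ℤ) → Bool) := inferInstance
  infer_instance

instance polish_free : PolishSpace (FreePart d) := by
  let Y : (Fin d → ℤ) → Type := fun g => {x : Conf d Bool // g ≠ 0 → shift g x ≠ x}
  have hY : ∀ g, PolishSpace (Y g) := by
    intro g
    by_cases hg : g = 0
    · have : IsOpen {x : Conf d Bool | g ≠ 0 → shift g x ≠ x} := by
        simp [hg]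
      exact this.polishSpace
    · have : IsOpen {x : Conf d Bool | g ≠ 0 → shift g x ≠ x} := by
        simp only [ne_eq, hg, not_false_eq_true, true_imp_iff]
        exact isOpen_ne g
      exact this.polishSpace
  let φ : FreePart d → Conf d Bool × (∀ g, Y g) := fun x => (x.1, fun g => ⟨x.1, x.2 g⟩)
  have hφ : Continuous φ := continuous_subtype_val.prodMk
    (continuous_pi fun g => continuous_subtype_val.subtype_mk _)
  have he : IsEmbedding φ := IsEmbedding.of_comp hφ continuous_fst IsEmbedding.subtypeVal
  have hpol : PolishSpace (Conf d Bool × (∀ g, Y g)) := by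
    have : ∀ g, TopologicalSpace.IsCompletelyMetrizableSpace (Y g) := fun g => inferInstance
    have : TopologicalSpace.IsCompletelyMetrizableSpace (∀ g, Y g) := inferInstance
    have : TopologicalSpace.IsCompletelyMetrizableSpace (Conf d Bool × (∀ g, Y g)) := inferInstance
    infer_instance
  have hc : IsClosed (range φ) := by
    have : range φ = {p | ∀ g, (p.2 g).1 = p.1} := by
      ext p
      constructor
      · rintro ⟨x, rfl⟩ g
        rfl
      · intro hp
        refine ⟨⟨p.1, fun g hg => ?_⟩, ?_⟩
        · have := (p.2 g).2 hg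
          rwa [hp g] at this
        · refine Prod.ext rfl ?_
          funext g
          exact Subtype.ext (hp g).symm
    rw [this]
    have : {p : Conf d Bool × (∀ g, Y g) | ∀ g, (p.2 g).1 = p.1} =
        ⋂ g, {p | (p.2 g).1 = p.1} := by
      ext p
      simp
    rw [this]
    refine isClosed_iInter fun g => isClosed_eq ?_ continuous_fst
    exact continuous_subtype_val.comp ((continuous_apply g).comp continuous_snd)
  exact (IsClosedEmbedding.mk he hc).polishSpace

/-- configuration of a labelling -/
def conf {k : ℕ} (f : FreePart d → Fin k) (x : FreePart d) : Conf d (Fin k) := fun g => f (act g x)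

theorem conf_equiv {k : ℕ} (f : FreePart d → Fin k) (g : Fin d → ℤ) (x y : FreePart d)
    (h : y.1 = shift g x.1) : conf f y = shift g (conf f x) := by
  have : y = act g x := Subtype.ext h
  subst this
  funext k
  show f (act k (act g x)) = f (act (k + g) x)
  rw [act_free.add]

end free

section A

variable {d : ℕ} (hd : 2 ≤ d) {k : ℕ} (e : Fin k ≃ Pool.Agent.W927.BM.Lab)

/-- the subshift of the first problem -/
def SP : Set (Conf d (Fin k)) :=
  {s | ∀ g, Rule (fun t x => e (shift g s (emb hd t x))) 0 0}

theorem isSFT_SP : IsSFT (SP hd e) := by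
  refine isSFT_of_window (winN hd) (fun s => Rule (fun t x => e (s (emb hd t x))) 0 0) ?_
  intro s s' h hR
  refine Rule_congr ?_ hR
  intro t x ht hx
  rw [zero_add, zero_add, h _ (mem_winN hd ht hx)]

theorem SP_conf (f : FreePart d → Fin k) :
    (∀ x, conf f x ∈ SP hd e) ↔ (PBM hd e).IsLabelling act f := by
  rw [PBM_iff hd e act_free.add]
  have key : ∀ (x : FreePart d) (g : Fin d → ℤ),
      (fun t' x' => e (shift g (conf f x) (emb hd t' x'))) =
        fun t' x' => e (f (act (emb hd t' x') (act g x))) := by
    intro x g
    funext t' x'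
    show e (f (act (emb hd t' x' + g) x)) = _
    rw [act_free.add]
  constructor
  · intro h x t y
    have h1 := h x (emb hd t y)
    rw [key] at h1
    refine Rule_congr (t := 0) (x := 0) (t' := t) (x' := y) ?_ h1
    intro s z _ _
    rw [zero_add, zero_add, ← act_free.add, ← emb_add, add_comm s t, add_comm z y]
  · intro h x g
    rw [key]
    exact h (act g x) 0 0

theorem SP_baire : HasBaire (SP hd e) := by
  obtain ⟨f, hf, hfP⟩ := PBM_inBaire hd e (FreePart d) act act_free
  refine ⟨conf f, ⟨(SP_conf hd e f).2 hfP, fun g x y h => conf_equiv f g x y h⟩, ?_⟩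
  have h1 : @Measurable _ _ (eventuallyMeasurableSpace (borel (FreePart d)) (residual (FreePart d)))
      _ (conf f) := by
    refine @measurable_pi_lambda _ _ _
      (eventuallyMeasurableSpace (borel (FreePart d)) (residual (FreePart d))) _ _ fun g => ?_
    refine @measurable_to_countable' _ _ _ _
      (eventuallyMeasurableSpace (borel (FreePart d)) (residual (FreePart d))) _ fun i => ?_
    exact (hf i).preimage (actH g).continuous (actH g).isOpenMap
  intro B hB
  exact h1 hB

theorem SP_not_measure : ¬ HasMeasure (SP hd e) := by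
  intro H
  obtain ⟨α, hα⟩ := exists_alpha d
  have : IsProbabilityMeasure (volume : Measure TT) := ⟨by simp⟩
  obtain ⟨T, hT, hTm⟩ := H (Measure.map (codeF hα) volume)
    (Measure.isProbabilityMeasure_map (measurable_codeF hα).aemeasurable)
  refine circle_neg hd hα ⟨fun θ => e (T (codeF hα θ) 0), ?_, ?_⟩
  · intro l
    have h0 : Measurable fun s : Conf d (Fin k) => s 0 := measurable_pi_apply 0
    have h1 : MeasurableSet {s : Conf d (Fin k) | e (s 0) ∈ ({l} : Set _)} :=
      h0 (MeasurableSet.of_discrete (s := e ⁻¹' {l}))
    exact (hTm _ h1).preimage ((measurable_codeF hα).quasiMeasurePreserving volume)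
  · refine Filter.Eventually.of_forall fun θ t x => ?_
    have h1 := hT.mem (codeF hα θ) (emb hd t x)
    refine Rule_congr (t := 0) (x := 0) (t' := t) (x' := x) ?_ h1
    intro s z _ _
    have h2 := Pool.Agent.W927.read hα hT θ (emb hd (t + s) (x + z))
    show e (T (codeF hα θ) (emb hd (0 + s) (0 + z) + emb hd t x)) =
      e (T (codeF hα (lin α (emb hd (t + s) (x + z)) + θ)) 0)
    rw [add_comm (lin α _) θ, ← h2, ← emb_add]
    congr 3 <;> ring

end A

section B

variable {d : ℕ} {k : ℕ} (e : Fin k ≃ Pool.Agent.W927.Lab)

/-- the subaction of `ℤ²` -/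
def sub2 (e0 e1 : Fin d → ℤ) (p : ℤ × ℤ) : FreePart d → FreePart d := act (p.1 • e0 + p.2 • e1)

theorem sub2_free {e0 e1 : Fin d → ℤ} (hi : ∀ i j : ℤ, i • e0 + j • e1 = 0 → i = 0 ∧ j = 0) :
    FreeBorel (sub2 e0 e1) where
  zero x := by
    show act _ x = x
    simp only [Prod.fst_zero, Prod.snd_zero, zero_smul, add_zero]
    exact act_free.zero x
  add g h x := by
    show act _ x = act _ (act _ x)
    rw [← act_free.add]
    congr 1
    simp only [Prod.fst_add, Prod.snd_add, add_smul]
    abel
  meas g := act_free.meas _
  free g x h := by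
    have := hi _ _ (act_free.free _ _ h)
    exact Prod.ext this.1 this.2

theorem SB_measure {e0 e1 : Fin d → ℤ} (hi : ∀ i j : ℤ, i • e0 + j • e1 = 0 → i = 0 ∧ j = 0) :
    HasMeasure (SB e e0 e1) := by
  intro μ hμ
  have hP := sub2_free hi
  obtain ⟨f, f', G, hf, hG, hinv, hnull, hff, hR⟩ := rect_total (FreePart d) (sub2 e0 e1) hP
    (fun g : Fin d → ℤ => μ.map (act g))
    (fun g => Measure.isProbabilityMeasure_map (act_free.meas g).aemeasurable)
  let q : HL × VL × Bool → Fin k := fun l => e.symm (l.1, l.2.1, l.2.2, ML.n)
  refine ⟨conf (fun x => q (f' x)), ⟨?_, fun g x y h => conf_equiv _ g x y h⟩, ?_⟩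
  · intro x g
    have h := hR (act g x)
    have e1' : ∀ z, sub2 e0 e1 (-1, 0) z = act (-e0) z := by
      intro z
      show act _ z = _
      simp
    have e2' : ∀ z, sub2 e0 e1 (0, -1) z = act (-e1) z := by
      intro z
      show act _ z = _
      simp
    obtain ⟨h1, h2, h3⟩ := h
    rw [e1', e2'] at h1
    rw [e1'] at h2
    rw [e2'] at h3
    have key : ∀ h, e (shift g (conf (fun x => q (f' x)) x) h) =
        ((f' (act h (act g x))).1, (f' (act h (act g x))).2.1, (f' (act h (act g x))).2.2, ML.n) := by
      intro h
      show e (q (f' (act (h + g) x))) = _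
      rw [act_free.add]
      simp only [q, Equiv.apply_symm_apply]
    unfold RuleB
    simp only [key, act_free.zero]
    exact ⟨h1, h2, h3⟩
  · have hfm : Measurable fun x => q (f x) := by
      refine measurable_to_countable' fun i => ?_
      have : (fun x => q (f x)) ⁻¹' {i} = ⋃ l ∈ {l | q l = i}, f ⁻¹' {l} := by
        ext x
        simp
      rw [this]
      exact MeasurableSet.biUnion (Set.to_countable _) fun l _ => hf l
    have hcm : Measurable (conf fun x => q (f x)) :=
      measurable_pi_lambda _ fun g => hfm.comp (act_free.meas g)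
    have hae : conf (fun x => q (f' x)) =ᵐ[μ] conf (fun x => q (f x)) := by
      have h1 : ∀ᵐ x ∂μ, ∀ g, act g x ∈ G := by
        rw [ae_all_iff]
        intro g
        have h2 := hnull g
        rw [Measure.map_apply (act_free.meas g) hG.compl] at h2
        exact h2
      filter_upwards [h1] with x hx
      funext g
      show q (f' (act g x)) = q (f (act g x))
      rw [hff _ (hx g)]
    intro B hB
    exact (hcm hB).nullMeasurableSet.congr (hae.preimage B).symm

end B

end Pool.Agent.U110
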