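import Pool.Agent.U110.IsoTwist
import Pool.Agent.U110.Sft

/-!
# Positive parts for the isotropic problems
-/

set_option autoImplicit false

namespace Pool.Agent.U110.Iso

open Set MeasureTheory Function
open Pool.Agent.W927 (Conf shift FreePart HL VL ML RuleB)
open Pool.Agent.W927.BM (emb Rule FreeBorel)
open Pool.Agent.U110 (act act_free actH cont_act sub2 sub2_free)

variable {d : ℕ}

theorem vec_true (i : Fin d) : vec (i, true) = Pi.single i 1 := rfl

theorem vec_false (i : Fin d) : vec (i, false) = -(Pi.single i 1 : Fin d → ℤ) := by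
  have : ((i, false) : Dir d) = neg (i, true) := rfl
  rw [this, vec_neg, vec_true]

theorem ga_SG : GA (act (d := d)) (SG d) where
  zero := act_free.zero
  add := act_free.add
  free := act_free.free
  adj x y := by
    unfold SG
    rw [SimpleGraph.fromRel_adj]
    constructor
    · rintro ⟨-, ⟨i, h⟩ | ⟨i, h⟩⟩
      · exact ⟨(i, true), Subtype.ext h⟩
      · refine ⟨(i, false), ?_⟩
        have h1 : x = act (Pi.single i 1) y := Subtype.ext h
        rw [vec_false, h1, ← act_free.add, neg_add_cancel, act_free.zero]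
    · rintro ⟨⟨i, c⟩, rfl⟩
      refine ⟨fun h => vec_ne (i, c) (act_free.free _ _ h.symm), ?_⟩
      cases c
      · right
        refine ⟨i, ?_⟩
        have h1 : x = act (Pi.single i 1) (act (vec (i, false)) x) := by
          rw [vec_false, ← act_free.add, add_neg_cancel, act_free.zero]
        exact congrArg Subtype.val h1
      · exact Or.inl ⟨i, rfl⟩

/-- the action on an invariant set -/
def actY {Y : Set (FreePart d)} (hY : Inv Y) (g : Fin d → ℤ) (x : Y) : Y :=
  ⟨act g x.1, hY g x.1 _ rfl x.2⟩

theorem ga_Y {Y : Set (FreePart d)} (hY : Inv Y) : GA (actY hY) ((SG d).induce Y) where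
  zero x := Subtype.ext (act_free.zero _)
  add g h x := Subtype.ext (act_free.add _ _ _)
  free g x h := act_free.free _ _ (congrArg Subtype.val h)
  adj x y := by
    show (SG d).Adj x.1 y.1 ↔ _
    rw [ga_SG.adj]
    constructor
    · rintro ⟨s, h⟩
      exact ⟨s, Subtype.ext h⟩
    · rintro ⟨s, h⟩
      exact ⟨s, congrArg Subtype.val h⟩

/-- differences of unit vectors -/
noncomputable def DF (d : ℕ) : Finset (Fin d → ℤ) := by
  classical
  exact ((Finset.univ : Finset (Dir d × Dir d)).image fun p => vec p.1 - vec p.2).erase 0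

theorem mem_DF {g : Fin d → ℤ} : g ∈ DF d ↔ g ≠ 0 ∧ ∃ s t : Dir d, vec s - vec t = g := by
  classical
  simp only [DF, Finset.mem_erase, Finset.mem_image, Finset.mem_univ, true_and, Prod.exists]

theorem exists_col (d : ℕ) : ∃ c : FreePart d → Fin ((DF d).card + 1), Measurable c ∧
    ∀ x, Injective fun s : Dir d => c (act (vec s) x) := by
  obtain ⟨c, hc, hcx⟩ := exists_coloring (act_free (d := d)) (F := DF d) (by
    intro g hg
    rw [mem_DF] at hg ⊢
    obtain ⟨h1, s, t, h2⟩ := hg
    refine ⟨neg_ne_zero.2 h1, t, s, ?_⟩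
    rw [← h2]
    abel) (by
    intro h
    rw [mem_DF] at h
    exact h.1 rfl)
  refine ⟨c, hc, fun x s t h => ?_⟩
  by_contra hst
  have h1 : vec s - vec t ∈ DF d := by
    rw [mem_DF]
    exact ⟨fun h2 => hst (vec_inj (sub_eq_zero.1 h2)), s, t, rfl⟩
  apply hcx (act (vec t) x) _ h1
  rw [← act_free.add, sub_add_cancel]
  exact h

variable {k0 k : ℕ} (e : Fin k ≃ Fin ((DF d).card + 1) × (Dir d → Fin ((DF d).card + 1)) × Fin k0)

theorem pos_transfer {Q : Conf d (Fin k0) → Prop} {m : ℕ} {Y : Set (FreePart d)} (hY : Inv Y)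
    {f0 : FreePart d → Fin k0} (hf0 : Measurable f0) (hQ : ∀ x ∈ Y, Q fun g => f0 (act g x)) :
    ∃ f : Y → Fin k, Measurable f ∧ (prob e Q m).Sol ((SG d).induce Y) f := by
  obtain ⟨c, hc, hcx⟩ := exists_col d
  let F : FreePart d → Fin k := fun x => e.symm (c x, fun s => c (act (vec s) x), f0 x)
  have hF : Measurable F := by
    have h1 : Measurable fun x => (c x, (fun s : Dir d => c (act (vec s) x)), f0 x) := by
      refine hc.prodMk (Measurable.prodMk ?_ hf0)
      exact measurable_pi_lambda _ fun s => hc.comp (act_free.meas _)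
    have h2 : Measurable (e.symm : Fin ((DF d).card + 1) × (Dir d → Fin ((DF d).card + 1)) × Fin k0 →
      Fin k) := measurable_of_countable _
    exact h2.comp h1
  refine ⟨fun x => F x.1, hF.comp measurable_subtype_coe, sol_of e (ga_Y hY) fun x => ?_⟩
  refine ⟨?_, ?_, ?_⟩
  · intro g _ s
    show (e (F (act g x.1))).2.1 s = (e (F (act (g + vec s) x.1))).1
    simp only [F, Equiv.apply_symm_apply]
    rw [show g + vec s = vec s + g from add_comm _ _, act_free.add]
  · intro g _
    show Injective (e (F (act g x.1))).2.1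
    simp only [F, Equiv.apply_symm_apply]
    exact hcx _
  · show Q fun g => (e (F (act g x.1))).2.2
    simp only [F, Equiv.apply_symm_apply]
    exact hQ x.1 x.2

/-- largest invariant subset -/
def core (G : Set (FreePart d)) : Set (FreePart d) := {x | ∀ g, act g x ∈ G}

theorem core_meas {G : Set (FreePart d)} (hG : MeasurableSet G) : MeasurableSet (core G) := by
  have : core G = ⋂ g : Fin d → ℤ, act g ⁻¹' G := by
    ext x
    simp [core]
  rw [this]
  exact MeasurableSet.iInter fun g => act_free.meas g hG

theorem core_inv (G : Set (FreePart d)) : Inv (core G) := by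
  intro g x y h hx k
  have : y = act g x := Subtype.ext h
  rw [this, ← act_free.add]
  exact hx _

theorem core_sub {G : Set (FreePart d)} {x : FreePart d} (hx : x ∈ core G) : x ∈ G := by
  have := hx 0
  rwa [act_free.zero] at this

section A

variable (hd : 2 ≤ d) (e' : Fin k0 ≃ Pool.Agent.W927.BM.Lab)

/-- the first rule -/
def QA (s : Conf d (Fin k0)) : Prop := Rule (fun t x => e' (s (emb hd t x))) 0 0

theorem baire_A (m : ℕ) : BaireSol d (prob e (QA hd e') m) := by
  obtain ⟨f, G, hf, hG, hGinv, hGres, hGR⟩ := Pool.Agent.W927.BM.pos (FreePart d)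
    (fun t x => act (emb hd t x)) (fun y => by rw [Pool.Agent.W927.BM.emb_zero, act_free.zero])
    (fun s t x z y => by rw [Pool.Agent.W927.BM.emb_add, act_free.add])
    (fun t x => act_free.meas _)
    (fun t x y h => Pool.Agent.W927.BM.emb_eq_zero hd (act_free.free _ _ h))
  refine ⟨core G, core_meas hG, core_inv G, ?_, ?_⟩
  · have : core G = ⋂ g : Fin d → ℤ, act g ⁻¹' G := by
      ext x
      simp [core]
    rw [this, countable_iInter_mem]
    intro g
    exact (tendsto_residual_of_isOpenMap (actH g).continuous (actH g).isOpenMap) hGres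
  · refine pos_transfer e (core_inv G) (f0 := fun x => e'.symm (f x)) ?_ ?_
    · refine measurable_to_countable' fun i => ?_
      have : (fun x => e'.symm (f x)) ⁻¹' {i} = f ⁻¹' {e' i} := by
        ext x
        simp only [mem_preimage, mem_singleton_iff, Equiv.symm_apply_eq]
      rw [this]
      exact hf _
    · intro x hx
      unfold QA
      simp only [Equiv.apply_symm_apply]
      exact hGR x (core_sub hx) 0 0

end A

section B

variable (e' : Fin k0 ≃ Pool.Agent.W927.Lab)

/-- the second rule -/
def QB (e0 e1 : Fin d → ℤ) (s : Conf d (Fin k0)) : Prop := RuleB e0 e1 fun h => e' (s h)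

theorem measure_B {e0 e1 : Fin d → ℤ} (hi : ∀ i j : ℤ, i • e0 + j • e1 = 0 → i = 0 ∧ j = 0)
    (m : ℕ) : MeasurableSol d (prob e (QB e' e0 e1) m) := by
  intro μ hμ
  have hP := sub2_free hi
  obtain ⟨f, G, hf, hG, hinv, hnull, hR⟩ := rect_label (FreePart d) (sub2 e0 e1) hP
    (fun g : Fin d → ℤ => μ.map (act g))
    (fun g => Measure.isProbabilityMeasure_map (act_free.meas g).aemeasurable)
  refine ⟨core G, core_meas hG, core_inv G, ?_, ?_⟩
  · have h1 : ∀ᵐ x ∂μ, ∀ g, act g x ∈ G := by
      rw [ae_all_iff]
      intro g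
      have h2 := hnull g
      rw [Measure.map_apply (act_free.meas g) hG.compl] at h2
      exact h2
    exact h1
  · let q : HL × VL × Bool → Fin k0 := fun l => e'.symm (l.1, l.2.1, l.2.2, ML.n)
    refine pos_transfer e (core_inv G) (f0 := fun x => q (f x)) ?_ ?_
    · refine measurable_to_countable' fun i => ?_
      have : (fun x => q (f x)) ⁻¹' {i} = ⋃ l ∈ {l | q l = i}, f ⁻¹' {l} := by
        ext x
        simp
      rw [this]
      exact MeasurableSet.biUnion (Set.to_countable _) fun l _ => hf l
    · intro x hx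
      have h := hR x (core_sub hx)
      have e1' : ∀ z, sub2 e0 e1 (-1, 0) z = act (-e0) z := by
        intro z
        show act _ z = _
        simp
      have e2' : ∀ z, sub2 e0 e1 (0, -1) z = act (-e1) z := by
        intro z
        show act _ z = _
        simp
      obtain ⟨h1, h2, h3⟩ := h
      rw [e1', e2'] at h1
      rw [e1'] at h2
      rw [e2'] at h3
      unfold QB RuleB
      simp only [q, Equiv.apply_symm_apply, act_free.zero]
      exact ⟨h1, h2, h3⟩

end B

end Pool.Agent.U110.Iso
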