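import Pool.Agent.U110.IsoChart

/-!
# The twist of a solution of the isotropic problem
-/

set_option autoImplicit false

namespace Pool.Agent.U110.Iso

open Function
open Pool.Agent.W927 (Conf)

variable {d : ℕ}

/-! ### signed permutations -/

/-- the homomorphism given by the images of the unit vectors -/
def lin (τ : Dir d → Dir d) : (Fin d → ℤ) →+ (Fin d → ℤ) where
  toFun g := ∑ i, g i • vec (τ (i, true))
  map_zero' := by simp
  map_add' g h := by simp [add_smul, Finset.sum_add_distrib]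

/-- odd maps of directions -/
def Odd' (τ : Dir d → Dir d) : Prop := ∀ s, τ (neg s) = neg (τ s)

theorem lin_vec {τ : Dir d → Dir d} (h : Odd' τ) (s : Dir d) : lin τ (vec s) = vec (τ s) := by
  have h1 : ∀ i, lin τ (vec (i, true)) = vec (τ (i, true)) := by
    intro i
    show ∑ j, vec (i, true) j • vec (τ (j, true)) = _
    rw [Finset.sum_eq_single i]
    · simp [vec_apply, sg]
    · intro j _ hj
      rw [vec_apply, if_neg hj, zero_smul]
    · intro hi
      exact absurd (Finset.mem_univ i) hi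
  obtain ⟨i, b⟩ := s
  cases b
  · have h2 : ((i, false) : Dir d) = neg (i, true) := rfl
    rw [h2, vec_neg, map_neg, h1, h, vec_neg]
  · exact h1 i

theorem lin_inj {τ : Dir d → Dir d} (h : Odd' τ) (hi : Injective τ) {g : Fin d → ℤ}
    (hg : lin τ g = 0) : g = 0 := by
  funext i
  have h1 := congrFun hg (τ (i, true)).1
  have h2 : lin τ g (τ (i, true)).1 = g i * sg (τ (i, true)).2 := by
    show (∑ j, g j • vec (τ (j, true))) (τ (i, true)).1 = _
    rw [Finset.sum_apply, Finset.sum_eq_single i]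
    · simp [vec_apply]
    · intro j _ hj
      rw [Pi.smul_apply, vec_apply, if_neg, smul_zero]
      intro e1
      have h3 : τ (j, true) = τ (i, true) ∨ τ (j, true) = τ (i, false) := by
        have h4 : τ (i, false) = neg (τ (i, true)) := h (i, true)
        by_cases h5 : (τ (j, true)).2 = (τ (i, true)).2
        · exact Or.inl (Prod.ext e1.symm h5)
        · right
          rw [h4]
          refine Prod.ext e1.symm ?_
          show (τ (j, true)).2 = !(τ (i, true)).2
          cases h6 : (τ (j, true)).2 <;> cases h7 : (τ (i, true)).2 <;> simp_all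
      rcases h3 with h3 | h3
      · exact hj (congrArg Prod.fst (hi h3))
      · have := congrArg Prod.snd (hi h3)
        simp at this
    · intro hi'
      exact absurd (Finset.mem_univ i) hi'
  rw [h2] at h1
  exact (mul_eq_zero.1 h1).resolve_right (sg_ne _)

section

variable {N k0 k : ℕ} (e : Fin k ≃ Fin N × (Dir d → Fin N) × Fin k0)
variable {W : Type} {b : (Fin d → ℤ) → W → W} {G : SimpleGraph W}
variable {Q : Conf d (Fin k0) → Prop} {m : ℕ} {f : W → Fin k} {σ : Conf d (Fin k)}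
variable {ψ : (Fin d → ℤ) → W} {x : W}

theorem nb (hσ : Cond e Q m σ) (hψ : Chart b f (m + 2) x σ ψ) {g : Fin d → ℤ}
    (hg : g ∈ B d (m + 1)) (s : Dir d) : ∃ t, ψ (g + vec s) = b (vec t) (ψ g) ∧
      (e (f (b (vec t) (ψ g)))).1 = (e (f (ψ g))).2.1 s := by
  have hg2 : g ∈ B d (m + 2) := B_mono (by omega) hg
  have hh : g + vec s ∈ B d (m + 2) := B_step hg s
  obtain ⟨t, ht⟩ := (hψ.adj g hg2 (g + vec s) hh).1 ⟨s, add_comm _ _⟩
  refine ⟨t, ht, ?_⟩
  rw [← ht, hψ.lab _ hh, hψ.lab _ hg2, hσ.dir g hg s]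

theorem exists_tau (ga : GA b G) (hc : ∀ x, ∃ σ ψ, Cond e Q m σ ∧ Chart b f (m + 2) x σ ψ)
    (x : W) (s : Dir d) : ∃ t, ∀ t', (e (f (b (vec t') x))).1 = (e (f x)).2.1 s ↔ t' = t := by
  obtain ⟨σ, ψ, hσ, hψ⟩ := hc x
  have h0 : (0 : Fin d → ℤ) ∈ B d (m + 1) := B_zero _
  have key : ∀ t', ∃ s', ψ (vec s') = b (vec t') x ∧
      (e (f (b (vec t') x))).1 = (e (f x)).2.1 s' := by
    intro t'
    obtain ⟨h, hh, hψh⟩ := hψ.surj (vec t') (by
      have := B_step (B_zero (d := d) (m + 1)) t'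
      rwa [zero_add] at this)
    obtain ⟨s', hs'⟩ := (hψ.adj 0 (B_zero _) h hh).2 ⟨t', by rw [hψh, hψ.root]⟩
    rw [add_zero] at hs'
    subst hs'
    refine ⟨s', hψh, ?_⟩
    have h1 := hσ.dir 0 h0 s'
    rw [zero_add] at h1
    rw [← hψh, hψ.lab _ hh, ← h1, ← hψ.lab 0 (B_zero _), hψ.root]
  have hinj : Injective (e (f x)).2.1 := by
    have := hσ.inj 0 h0
    rwa [← hψ.lab 0 (B_zero _), hψ.root] at this
  obtain ⟨t, ht1, ht2⟩ := nb e hσ hψ h0 s
  rw [hψ.root] at ht1 ht2
  rw [zero_add] at ht1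
  refine ⟨t, fun t' => ⟨fun h => ?_, fun h => by rw [h]; exact ht2⟩⟩
  obtain ⟨s', h1, h2⟩ := key t'
  have h3 : s' = s := hinj (h2.symm.trans h)
  rw [h3, ht1] at h1
  exact (vec_inj (ga.inj h1)).symm

/-- the twist data -/
structure Tw (b : (Fin d → ℤ) → W → W) (Q : Conf d (Fin k0) → Prop) (f : W → Fin k)
    (τ : W → Dir d → Dir d) : Prop where
  iff : ∀ x s t, (e (f (b (vec t) x))).1 = (e (f x)).2.1 s ↔ t = τ x s
  inv : ∀ g x, τ (b g x) = τ x
  odd : ∀ x, Odd' (τ x)
  inj : ∀ x, Injective (τ x)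
  pat : ∀ x, Q fun g => (e (f (b (lin (τ x) g) x))).2.2

theorem exists_twist (ga : GA b G) (hc : ∀ x, ∃ σ ψ, Cond e Q m σ ∧ Chart b f (m + 2) x σ ψ)
    (F : Set (Fin d → ℤ)) (hF : ∀ g ∈ F, g ∈ B d (m + 2))
    (hQ : ∀ s s' : Conf d (Fin k0), (∀ w ∈ F, s w = s' w) → Q s → Q s') :
    ∃ τ : W → Dir d → Dir d, Tw e b Q f τ := by
  choose τ hτ using exists_tau e ga hc
  have h0 : (0 : Fin d → ℤ) ∈ B d (m + 1) := B_zero _
  have hv : ∀ s : Dir d, vec s ∈ B d (m + 1) := by
    intro s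
    have := B_step (B_zero (d := d) m) s
    rwa [zero_add] at this
  have hinj : ∀ x, Injective (τ x) := by
    intro x s s' h
    obtain ⟨σ, ψ, hσ, hψ⟩ := hc x
    have hi : Injective (e (f x)).2.1 := by
      have := hσ.inj 0 h0
      rwa [← hψ.lab 0 (B_zero _), hψ.root] at this
    have h1 := (hτ x s _).2 rfl
    have h2 := (hτ x s' _).2 rfl
    rw [h] at h1
    exact hi (h1.symm.trans h2)
  have hsur : ∀ x, Surjective (τ x) := fun x => Finite.surjective_of_injective (hinj x)
  have step : ∀ x (σ : Conf d (Fin k)) (ψ : (Fin d → ℤ) → W), Cond e Q m σ →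
      Chart b f (m + 2) x σ ψ → ∀ g ∈ B d (m + 1), ∀ s,
      ψ (g + vec s) = b (vec (τ (ψ g) s)) (ψ g) := by
    intro x σ ψ hσ hψ g hg s
    obtain ⟨t, h1, h2⟩ := nb e hσ hψ hg s
    rw [h1, (hτ _ _ _).1 h2]
  -- (a)
  have ha : ∀ x s, τ (b (vec (τ x s)) x) (neg s) = neg (τ x s) := by
    intro x s
    obtain ⟨σ, ψ, hσ, hψ⟩ := hc x
    have h1 := step x σ ψ hσ hψ 0 h0 s
    rw [zero_add, hψ.root] at h1
    have h2 := step x σ ψ hσ hψ (vec s) (hv s) (neg s)
    rw [vec_neg, add_neg_cancel, hψ.root, h1, ← ga.add] at h2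
    have h3 := ga.free _ _ h2.symm
    rw [add_comm] at h3
    exact vec_cancel h3
  -- (b)
  have hb : ∀ x s t, s ≠ t → t ≠ neg s → τ (b (vec (τ x s)) x) t = τ x t := by
    intro x s t hst hts
    obtain ⟨σ, ψ, hσ, hψ⟩ := hc x
    have h1 := step x σ ψ hσ hψ 0 h0 s
    rw [zero_add, hψ.root] at h1
    have h2 := step x σ ψ hσ hψ 0 h0 t
    rw [zero_add, hψ.root] at h2
    have h3 := step x σ ψ hσ hψ (vec s) (hv s) t
    have h4 := step x σ ψ hσ hψ (vec t) (hv t) s
    rw [add_comm, h4, h1, h2, ← ga.add, ← ga.add] at h3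
    have h5 := ga.inj h3
    have h6 : vec (τ x s) + vec (τ (b (vec (τ x s)) x) t) =
        vec (τ x t) + vec (τ (b (vec (τ x t)) x) s) := by
      rw [add_comm, ← h5, add_comm]
    rcases quad h6 (fun h => hst (hinj x h)) with h7 | h7
    · exact h7.2
    · exfalso
      have h8 := ha x s
      rw [← h7.1] at h8
      exact hts (hinj _ h8).symm
  -- (c)
  have hcc : ∀ x s, τ (b (vec (τ x s)) x) = τ x ∧ τ x (neg s) = neg (τ x s) := by
    intro x s
    have h1 : τ x (neg s) = neg (τ x s) := by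
      obtain ⟨r, hr⟩ := hsur x (neg (τ x s))
      by_cases h2 : r = s
      · rw [h2] at hr
        exact absurd hr.symm (neg_ne _)
      · by_cases h3 : r = neg s
        · rw [← h3]; exact hr
        · have h4 := hb x s r (Ne.symm h2) h3
          rw [hr, ← ha x s] at h4
          exact absurd (hinj _ h4) h3
    refine ⟨?_, h1⟩
    funext t
    by_cases h2 : t = s
    · subst h2
      obtain ⟨r, hr⟩ := hsur x (τ (b (vec (τ x t)) x) t)
      by_cases h3 : r = t
      · rw [h3] at hr; exact hr.symm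
      · by_cases h4 : r = neg t
        · rw [h4, h1, ← ha x t] at hr
          exact absurd (hinj _ hr) (neg_ne t)
        · have h5 := hb x t r (Ne.symm h3) h4
          rw [hr] at h5
          exact absurd (hinj _ h5) h3
    · by_cases h3 : t = neg s
      · rw [h3, ha x s, h1]
      · exact hb x s t (Ne.symm h2) h3
  have hodd : ∀ x, Odd' (τ x) := fun x s => (hcc x s).2
  have hinv1 : ∀ x t, τ (b (vec t) x) = τ x := by
    intro x t
    obtain ⟨s, rfl⟩ := hsur x t
    exact (hcc x s).1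
  have hinv2 : ∀ (l : List (Dir d)) x, τ (b (S l) x) = τ x := by
    intro l
    induction l with
    | nil => intro x; rw [S_nil, ga.zero]
    | cons s l ih =>
      intro x
      rw [S_cons, ga.add, hinv1, ih]
  have hinv : ∀ g x, τ (b g x) = τ x := by
    intro g x
    obtain ⟨l, rfl⟩ := exists_word g
    exact hinv2 l x
  refine ⟨τ, fun x s t => hτ x s t, hinv, hodd, hinj, fun x => ?_⟩
  obtain ⟨σ, ψ, hσ, hψ⟩ := hc x
  have hform : ∀ l : List (Dir d), l.length ≤ m + 2 → ψ (S l) = b (lin (τ x) (S l)) x := by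
    intro l
    induction l with
    | nil => intro _; rw [S_nil, hψ.root, map_zero, ga.zero]
    | cons s l ih =>
      intro hl
      simp only [List.length_cons] at hl
      have h1 := ih (by omega)
      have h2 := step x σ ψ hσ hψ (S l) ⟨l, by omega, rfl⟩ s
      rw [S_cons, add_comm, h2, h1, hinv, ← ga.add, map_add, lin_vec (hodd x), add_comm]
  refine hQ _ _ ?_ hσ.pat
  intro w hw
  obtain ⟨l, hl, rfl⟩ := hF w hw
  rw [← hform l hl, hψ.lab _ ⟨l, hl, rfl⟩]

end

end Pool.Agent.U110.Iso
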