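import Pool.Agent.W927.BM.Cls

/-!
# Borel maximal independent sets and Borel finite colourings for free Borel actions
-/

set_option autoImplicit false

namespace Pool.Agent.U110

open Pool.Agent.W927.BM Set

section

variable {Γ X : Type} [AddGroup Γ]

/-- `D` is independent for the finite set `F` of group elements. -/
def Indep (a : Γ → X → X) (F : Finset Γ) (D : Set X) : Prop :=
  ∀ x ∈ D, ∀ g ∈ F, a g x ∉ D

/-- greedy construction of an independent subset of `Y` -/
def grd (a : Γ → X → X) (F : Finset Γ) (Y : Set X) (B : ℕ → Set X) : ℕ → Set X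
  | 0 => ∅
  | k + 1 => grd a F Y B k ∪
      {x | x ∈ Y ∧ x ∈ B k ∧ (∀ g ∈ F, a g x ∉ B k) ∧ ∀ g ∈ F, a g x ∉ grd a F Y B k}

omit [AddGroup Γ] in
theorem grd_mono (a : Γ → X → X) (F : Finset Γ) (Y : Set X) (B : ℕ → Set X) {k l : ℕ}
    (h : k ≤ l) : grd a F Y B k ⊆ grd a F Y B l := by
  induction l, h using Nat.le_induction with
  | base => exact subset_rfl
  | succ l _ ih => exact ih.trans subset_union_left

omit [AddGroup Γ] in
theorem grd_sub (a : Γ → X → X) (F : Finset Γ) (Y : Set X) (B : ℕ → Set X) (k : ℕ) :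
    grd a F Y B k ⊆ Y := by
  induction k with
  | zero => exact empty_subset _
  | succ k ih =>
    rintro x (hx | hx)
    · exact ih hx
    · exact hx.1

theorem grd_indep {a : Γ → X → X} (h0 : ∀ x, a 0 x = x)
    (hadd : ∀ g h x, a (g + h) x = a g (a h x)) {F : Finset Γ} (hF : ∀ g ∈ F, -g ∈ F)
    (Y : Set X) (B : ℕ → Set X) (k : ℕ) : Indep a F (grd a F Y B k) := by
  induction k with
  | zero => exact fun x hx => absurd hx (notMem_empty x)
  | succ k ih =>
    intro x hx g hg hgx
    rcases hx with hx | hx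
    · rcases hgx with hgx | hgx
      · exact ih x hx g hg hgx
      · apply hgx.2.2.2 (-g) (hF g hg)
        rw [← hadd, neg_add_cancel, h0]
        exact hx
    · rcases hgx with hgx | hgx
      · exact hx.2.2.2 g hg hgx
      · exact hx.2.2.1 g hg hgx.2.1

theorem grd_meas [MeasurableSpace X] {a : Γ → X → X} (hm : ∀ g, Measurable (a g)) (F : Finset Γ)
    {Y : Set X} (hY : MeasurableSet Y) {B : ℕ → Set X} (hB : ∀ k, MeasurableSet (B k)) (k : ℕ) :
    MeasurableSet (grd a F Y B k) := by
  induction k with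
  | zero => exact MeasurableSet.empty
  | succ k ih =>
    refine ih.union ?_
    have e : {x | x ∈ Y ∧ x ∈ B k ∧ (∀ g ∈ F, a g x ∉ B k) ∧ ∀ g ∈ F, a g x ∉ grd a F Y B k} =
        Y ∩ (B k ∩ ((⋂ g ∈ F, a g ⁻¹' (B k)ᶜ) ∩ ⋂ g ∈ F, a g ⁻¹' (grd a F Y B k)ᶜ)) := by
      ext x
      simp only [mem_ofPred_eq, mem_inter_iff, mem_iInter, mem_preimage, mem_compl_iff]
    rw [e]
    refine hY.inter ((hB k).inter (MeasurableSet.inter ?_ ?_))
    · exact F.measurableSet_biInter fun g _ => hm g (hB k).compl
    · exact F.measurableSet_biInter fun g _ => hm g ih.compl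

theorem exists_sep (X : Type) [MeasurableSpace X] [StandardBorelSpace X] :
    ∃ B : ℕ → Set X, (∀ k, MeasurableSet (B k)) ∧
      ∀ (y : X) (F : Set X), F.Finite → y ∉ F → ∃ k, y ∈ B k ∧ ∀ z ∈ F, z ∉ B k := by
  let _ := upgradeStandardBorel X
  rcases isEmpty_or_nonempty X with hX | hX
  · exact ⟨fun _ => ∅, fun _ => MeasurableSet.empty, fun y => (hX.false y).elim⟩
  · have hcount : (TopologicalSpace.countableBasis X).Countable :=
      TopologicalSpace.countable_countableBasis X
    have hne : (TopologicalSpace.countableBasis X).Nonempty := by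
      obtain ⟨y⟩ := hX
      obtain ⟨V, hV, -⟩ := (TopologicalSpace.isBasis_countableBasis X).exists_subset_of_mem_open
        (mem_univ y) isOpen_univ
      exact ⟨V, hV⟩
    obtain ⟨B, hB⟩ := hcount.exists_eq_range hne
    refine ⟨B, fun k => ?_, fun y F hF hy => ?_⟩
    · have : B k ∈ TopologicalSpace.countableBasis X := by rw [hB]; exact mem_range_self k
      exact ((TopologicalSpace.isBasis_countableBasis X).isOpen this).measurableSet
    · obtain ⟨V, hV, hyV, hVs⟩ := (TopologicalSpace.isBasis_countableBasis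
        X).exists_subset_of_mem_open (show y ∈ Fᶜ from hy) hF.isClosed.isOpen_compl
      rw [hB] at hV
      obtain ⟨k, rfl⟩ := hV
      exact ⟨k, hyV, fun z hz hzV => hVs hzV hz⟩

/-- Borel maximal independent subsets of Borel sets. -/
theorem exists_max [MeasurableSpace X] [StandardBorelSpace X] {a : Γ → X → X}
    (ha : FreeBorel a) {F : Finset Γ} (hF : ∀ g ∈ F, -g ∈ F) (hF0 : (0 : Γ) ∉ F)
    {Y : Set X} (hY : MeasurableSet Y) :
    ∃ D : Set X, MeasurableSet D ∧ D ⊆ Y ∧ Indep a F D ∧ ∀ x ∈ Y, x ∈ D ∨ ∃ g ∈ F, a g x ∈ D := by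
  classical
  obtain ⟨B, hB, hsep⟩ := exists_sep X
  refine ⟨⋃ k, grd a F Y B k, MeasurableSet.iUnion fun k => grd_meas ha.meas F hY hB k,
    iUnion_subset fun k => grd_sub a F Y B k, ?_, ?_⟩
  · intro x hx g hg hgx
    rw [mem_iUnion] at hx hgx
    obtain ⟨k, hk⟩ := hx
    obtain ⟨l, hl⟩ := hgx
    exact grd_indep ha.zero ha.add hF Y B (max k l) x (grd_mono a F Y B (le_max_left _ _) hk) g hg
      (grd_mono a F Y B (le_max_right _ _) hl)
  · intro x hx
    obtain ⟨k, hk1, hk2⟩ := hsep x ((fun g => a g x) '' (F : Set Γ)) (F.finite_toSet.image _) (by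
      rintro ⟨g, hg, h⟩
      exact hF0 (by rw [← ha.free g x h]; exact hg))
    have hB' : ∀ g ∈ F, a g x ∉ B k := fun g hg => hk2 _ ⟨g, hg, rfl⟩
    by_cases hc : ∀ g ∈ F, a g x ∉ grd a F Y B k
    · left
      rw [mem_iUnion]
      exact ⟨k + 1, Or.inr ⟨hx, hk1, hB', hc⟩⟩
    · right
      push Not at hc
      obtain ⟨g, hg, h⟩ := hc
      exact ⟨g, hg, mem_iUnion.2 ⟨k, h⟩⟩

/-- the pieces of the colouring -/
theorem exists_pieces [MeasurableSpace X] [StandardBorelSpace X] {a : Γ → X → X}
    (ha : FreeBorel a) {F : Finset Γ} (hF : ∀ g ∈ F, -g ∈ F) (hF0 : (0 : Γ) ∉ F) (n : ℕ) :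
    ∃ D : Fin n → Set X, (∀ i, MeasurableSet (D i)) ∧ (∀ i, Indep a F (D i)) ∧
      (∀ i j, i ≠ j → Disjoint (D i) (D j)) ∧
      ∀ x, (∀ i, x ∉ D i) → ∀ i, ∃ g ∈ F, a g x ∈ D i := by
  induction n with
  | zero =>
    exact ⟨fun _ => ∅, fun _ => MeasurableSet.empty, fun i => i.elim0, fun i => i.elim0,
      fun x _ i => i.elim0⟩
  | succ n ih =>
    obtain ⟨D, hD, hI, hdis, hmax⟩ := ih
    have hY : MeasurableSet (⋃ i, D i)ᶜ := (MeasurableSet.iUnion hD).compl
    obtain ⟨E, hE, hEY, hEI, hEm⟩ := exists_max ha hF hF0 hY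
    refine ⟨Fin.snoc (α := fun _ => Set X) D E, ?_, ?_, ?_, ?_⟩
    · intro i
      refine Fin.lastCases ?_ (fun i => ?_) i
      · simpa using hE
      · simpa using hD i
    · intro i
      refine Fin.lastCases ?_ (fun i => ?_) i
      · simpa using hEI
      · simpa using hI i
    · have key : ∀ i, Disjoint (D i) E := fun i => by
        rw [Set.disjoint_left]
        intro x hx hxE
        exact hEY hxE (mem_iUnion.2 ⟨i, hx⟩)
      intro i j
      refine Fin.lastCases ?_ (fun i => ?_) i
      · refine Fin.lastCases ?_ (fun j => ?_) j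
        · intro h; exact absurd rfl h
        · intro _
          simpa using (key j).symm
      · refine Fin.lastCases ?_ (fun j => ?_) j
        · intro _
          simpa using key i
        · intro h
          have : i ≠ j := fun h' => h (by rw [h'])
          simpa using hdis i j this
    · intro x hx i
      have h1 : ∀ i, x ∉ D i := fun i => by simpa using hx i.castSucc
      have h2 : x ∉ E := by simpa using hx (Fin.last n)
      refine Fin.lastCases ?_ (fun i => ?_) i
      · have hxY : x ∈ (⋃ i, D i)ᶜ := by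
          rw [mem_compl_iff, mem_iUnion]
          rintro ⟨i, hi⟩
          exact h1 i hi
        rcases hEm x hxY with h | ⟨g, hg, h⟩
        · exact absurd h h2
        · exact ⟨g, hg, by simpa using h⟩
      · obtain ⟨g, hg, h⟩ := hmax x h1 i
        exact ⟨g, hg, by simpa using h⟩

/-- Borel colourings with finitely many colours. -/
theorem exists_coloring [MeasurableSpace X] [StandardBorelSpace X] {a : Γ → X → X}
    (ha : FreeBorel a) {F : Finset Γ} (hF : ∀ g ∈ F, -g ∈ F) (hF0 : (0 : Γ) ∉ F) :
    ∃ c : X → Fin (F.card + 1), Measurable c ∧ ∀ x, ∀ g ∈ F, c (a g x) ≠ c x := by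
  classical
  obtain ⟨D, hD, hI, hdis, hmax⟩ := exists_pieces ha hF hF0 (F.card + 1)
  have hcov : ∀ x, ∃ i, x ∈ D i := by
    intro x
    by_contra hc
    push Not at hc
    choose g hg hgx using hmax x hc
    have hinj : Function.Injective g := by
      intro i j hij
      by_contra hne
      have h1 := hgx i
      rw [hij] at h1
      exact Set.disjoint_left.1 (hdis i j hne) h1 (hgx j)
    have h1 : Fintype.card (Fin (F.card + 1)) ≤ Fintype.card F :=
      Fintype.card_le_of_injective (fun i => (⟨g i, hg i⟩ : F)) fun i j h =>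
        hinj (congrArg Subtype.val h)
    simp at h1
  choose c hc using hcov
  have huniq : ∀ x i, x ∈ D i → c x = i := by
    intro x i hx
    by_contra hne
    exact Set.disjoint_left.1 (hdis _ _ hne) (hc x) hx
  refine ⟨c, ?_, ?_⟩
  · refine measurable_to_countable' fun i => ?_
    have : c ⁻¹' {i} = D i := by
      ext x
      constructor
      · intro h
        have h1 : c x = i := h
        rw [← h1]
        exact hc x
      · exact fun h => huniq x i h
    rw [this]
    exact hD i
  · intro x g hg h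
    apply hI (c x) x (hc x) g hg
    rw [← h]
    exact hc _

end

end Pool.Agent.U110
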