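import Mathlib

/-!
# A Borel-Cantelli argument for random shifts
-/

set_option autoImplicit false

namespace Pool.Agent.U110

open MeasureTheory Filter Set ProbabilityTheory

theorem rand {V : Type} [MeasurableSpace V] (ν : ℕ → Measure V) [∀ m, IsProbabilityMeasure (ν m)]
    (Cv Kl : ℕ → Set V) (hCv : ∀ m, MeasurableSet (Cv m)) (hKl : ∀ m, MeasurableSet (Kl m))
    (δ : ENNReal) (hδ : δ ≠ 0) (h1 : ∀ m, δ ≤ ν m (Cv m)) (h2 : ∑' m, ν m (Kl m) ≠ ⊤) :
    ∀ᵐ v ∂(Measure.infinitePi ν), (∃ᶠ m in atTop, v m ∈ Cv m) ∧ ∀ᶠ m in atTop, v m ∉ Kl m := by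
  have hmarg : ∀ m (s : Set V), MeasurableSet s →
      Measure.infinitePi ν ((fun v : ℕ → V => v m) ⁻¹' s) = ν m s := by
    intro m s hs
    have h := measurePreserving_eval_infinitePi ν m
    exact h.measure_preimage hs.nullMeasurableSet
  have hInd : iIndepFun (fun (m : ℕ) (v : ℕ → V) => v m) (Measure.infinitePi ν) :=
    iIndepFun_infinitePi (P := ν) (X := fun _ x => x) (fun _ => measurable_id)
  have hS : iIndepSet (fun m => (fun v : ℕ → V => v m) ⁻¹' (Cv m)) (Measure.infinitePi ν) := by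
    rw [iIndepSet_iff_meas_biInter fun m => measurable_pi_apply m (hCv m)]
    intro s
    exact hInd.measure_inter_preimage_eq_mul s (fun i _ => hCv i)
  have e1 : ∀ᵐ v ∂(Measure.infinitePi ν), ∃ᶠ m in atTop, v m ∈ Cv m := by
    have h3 : Measure.infinitePi ν (limsup (fun m => (fun v : ℕ → V => v m) ⁻¹' (Cv m)) atTop) = 1 := by
      refine measure_limsup_eq_one (fun m => measurable_pi_apply m (hCv m)) hS ?_
      have : ∑' _ : ℕ, δ = ⊤ := ENNReal.tsum_const_eq_top_of_ne_zero hδ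
      refine top_le_iff.1 (this ▸ ENNReal.tsum_le_tsum fun m => ?_)
      rw [hmarg m _ (hCv m)]
      exact h1 m
    have h4 : MeasurableSet (limsup (fun m => (fun v : ℕ → V => v m) ⁻¹' (Cv m)) atTop) :=
      MeasurableSet.measurableSet_limsup fun m => measurable_pi_apply m (hCv m)
    have h5 := (prob_compl_eq_zero_iff h4).2 h3
    filter_upwards [compl_mem_ae_iff.2 h5] with v hv
    rw [compl_compl, mem_limsup_iff_frequently_mem] at hv
    exact hv
  have e2 : ∀ᵐ v ∂(Measure.infinitePi ν), ∀ᶠ m in atTop, v m ∉ Kl m := by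
    have h3 : ∑' m, Measure.infinitePi ν ((fun v : ℕ → V => v m) ⁻¹' (Kl m)) ≠ ⊤ := by
      have : ∀ m, Measure.infinitePi ν ((fun v : ℕ → V => v m) ⁻¹' (Kl m)) = ν m (Kl m) :=
        fun m => hmarg m _ (hKl m)
      simp only [this]
      exact h2
    exact ae_eventually_notMem h3
  filter_upwards [e1, e2] with v hv1 hv2
  exact ⟨hv1, hv2⟩

end Pool.Agent.U110
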