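import Pool.Agent.U110.RectPos
import Pool.Agent.W927.Code
import Pool.Agent.W927.BM.Own

/-!
# Walls and colours from nested boxes
-/

set_option autoImplicit false

namespace Pool.Agent.U110

open Set MeasureTheory
open Pool.Agent.W927 (HL VL ML okV)
open Pool.Agent.W927.BM (FreeBorel exists_cocycle)

/-- label of a horizontal edge from the levels of the cells below and above -/
def hl (i j : ℕ) : HL := if i = j then .n else if i < j then .t else .b

/-- label of a vertical edge from the levels of the cells on the left and on the right -/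
def vl (i j : ℕ) : VL := if i = j then .n else if i < j then .r else .l

theorem hl_n {i j : ℕ} (h : hl i j = .n) : i = j := by
  unfold hl at h
  split_ifs at h
  assumption

theorem vl_n {i j : ℕ} (h : vl i j = .n) : i = j := by
  unfold vl at h
  split_ifs at h
  assumption

theorem okV_pattern {k o : ℕ} (hko : k < o) (u w : Bool → Bool) (hu : ∃ i, u i = true)
    (hw : ∃ j, w j = true) (L : Bool → Bool → ℕ)
    (hL : ∀ i j, L i j = if u i = true ∧ w j = true then k else o) :
    okV (hl (L false false) (L false true)) (hl (L true false) (L true true))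
      (vl (L false false) (L true false)) (vl (L false true) (L true true)) := by
  have h1 : u true = true ∨ u false = true := by
    obtain ⟨i, hi⟩ := hu
    cases i
    · exact Or.inr hi
    · exact Or.inl hi
  have h2 : w true = true ∨ w false = true := by
    obtain ⟨i, hi⟩ := hw
    cases i
    · exact Or.inr hi
    · exact Or.inl hi
  have a1 : k ≠ o := by omega
  have a2 : o ≠ k := by omega
  have a3 : ¬ o < k := by omega
  simp only [hL]
  cases hut : u true <;> cases huf : u false <;> cases hwt : w true <;> cases hwf : w false <;>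
    simp_all [okV, hl, vl]

/-- the pair of labels and the colour satisfy the rule at the vertex `y` -/
structure RR {X : Type} (P : ℤ × ℤ → X → X) (f : X → HL × VL × Bool) (y : X) : Prop where
  ok : okV (f (P (-1, 0) y)).1 (f y).1 (f (P (0, -1) y)).2.1 (f y).2.1
  ch : (f y).2.1 = .n → (f y).2.2 = !(f (P (-1, 0) y)).2.2
  cv : (f y).1 = .n → (f y).2.2 = !(f (P (0, -1) y)).2.2

theorem rect_label (X : Type) [MeasurableSpace X] [StandardBorelSpace X] (P : ℤ × ℤ → X → X)
    (hP : FreeBorel P) {ι : Type} [Countable ι] (μ : ι → Measure X)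
    (hμ : ∀ i, IsProbabilityMeasure (μ i)) :
    ∃ (f : X → HL × VL × Bool) (G : Set X), (∀ l, MeasurableSet (f ⁻¹' {l})) ∧
      MeasurableSet G ∧ (∀ g, ∀ y ∈ G, P g y ∈ G) ∧ (∀ i, μ i Gᶜ = 0) ∧ ∀ y ∈ G, RR P f y := by
  obtain ⟨D, v, G, hD, hs, hG, hinv, hnull, hcov⟩ := rect_cover X P hP μ hμ
  let f : X → HL × VL × Bool := fun y =>
    (hl (lev P D v (P (0, -1) y)) (lev P D v y), vl (lev P D v (P (-1, 0) y)) (lev P D v y),
      par P D v y)
  have hf : ∀ l, MeasurableSet (f ⁻¹' {l}) := by
    intro l
    have h1 : Measurable fun y => (lev P D v (P (0, -1) y), lev P D v (P (-1, 0) y), lev P D v y,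
        par P D v y) :=
      ((lev_meas hP hD).comp (hP.meas _)).prodMk (((lev_meas hP hD).comp (hP.meas _)).prodMk
        ((lev_meas hP hD).prodMk (par_meas hP hs hD)))
    have h2 : MeasurableSet {p : ℕ × ℕ × ℕ × Bool |
        (hl p.1 p.2.2.1, vl p.2.1 p.2.2.1, p.2.2.2) = l} := (Set.to_countable _).measurableSet
    exact h1 h2
  refine ⟨f, G, hf, hG, hinv, hnull, fun y hy => ?_⟩
  -- the four cells
  have hcell : ∀ g, ∃ k, P g y ∈ Ins P D v k := fun g => hcov _ (hinv g y hy)
  obtain ⟨k, o, u, w, hko, hu, hw, hL⟩ := pattern (v := v) hP hs (y := P (-1, -1) y) (by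
    intro i j
    rw [← hP.add]
    exact hcell _)
  have e00 : P (bi false, bi false) (P (-1, -1) y) = P (-1, -1) y := by
    rw [← hP.add]; rfl
  have e01 : P (bi false, bi true) (P (-1, -1) y) = P (-1, 0) y := by
    rw [← hP.add]; rfl
  have e10 : P (bi true, bi false) (P (-1, -1) y) = P (0, -1) y := by
    rw [← hP.add]; rfl
  have e11 : P (bi true, bi true) (P (-1, -1) y) = y := by
    rw [← hP.add]
    exact hP.zero y
  have e2 : P (0, -1) (P (-1, 0) y) = P (-1, -1) y := by
    rw [← hP.add]; rfl
  have e3 : P (-1, 0) (P (0, -1) y) = P (-1, -1) y := by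
    rw [← hP.add]; rfl
  have hy0 : ∃ k, y ∈ Ins P D v k := hcov y hy
  refine ⟨?_, ?_, ?_⟩
  · have h := okV_pattern hko u w hu hw (fun i j => lev P D v (P (bi i, bi j) (P (-1, -1) y))) hL
    simp only [e00, e01, e10, e11] at h
    simp only [f, e2, e3]
    exact h
  · intro h
    have h1 := vl_n h
    have e4 : P (1, 0) (P (-1, 0) y) = y := by
      rw [← hP.add]; exact hP.zero y
    have h2 := par_step (v := v) hP hs (y := P (-1, 0) y) (s := (1, 0)) (Or.inl rfl) (hcell _)
      (by rw [e4]; exact hy0) (by rw [e4]; exact h1.symm)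
    rw [e4] at h2
    simp only [f]
    cases h3 : par P D v y <;> cases h4 : par P D v (P (-1, 0) y) <;> simp_all
  · intro h
    have h1 := hl_n h
    have e4 : P (0, 1) (P (0, -1) y) = y := by
      rw [← hP.add]; exact hP.zero y
    have h2 := par_step (v := v) hP hs (y := P (0, -1) y) (s := (0, 1)) (Or.inr rfl) (hcell _)
      (by rw [e4]; exact hy0) (by rw [e4]; exact h1.symm)
    rw [e4] at h2
    simp only [f]
    cases h3 : par P D v y <;> cases h4 : par P D v (P (0, -1) y) <;> simp_all

theorem dec_flip {a b : ℤ} (h : b = a - 1) : decide (a % 2 = 0) = !decide (b % 2 = 0) := by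
  subst h
  by_cases h : a % 2 = 0
  · rw [decide_eq_true h, decide_eq_false (show ¬ (a - 1) % 2 = 0 by omega)]
    rfl
  · rw [decide_eq_false h, decide_eq_true (show (a - 1) % 2 = 0 by omega)]
    rfl

/-- total version: a labelling which satisfies the rule everywhere and which is Borel on an
invariant conull Borel set -/
theorem rect_total (X : Type) [MeasurableSpace X] [StandardBorelSpace X] (P : ℤ × ℤ → X → X)
    (hP : FreeBorel P) {ι : Type} [Countable ι] (μ : ι → Measure X)
    (hμ : ∀ i, IsProbabilityMeasure (μ i)) :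
    ∃ (f f' : X → HL × VL × Bool) (G : Set X), (∀ l, MeasurableSet (f ⁻¹' {l})) ∧
      MeasurableSet G ∧ (∀ g, ∀ y ∈ G, P g y ∈ G) ∧ (∀ i, μ i Gᶜ = 0) ∧ (∀ y ∈ G, f' y = f y) ∧
      ∀ y, RR P f' y := by
  classical
  obtain ⟨f, G, hf, hG, hinv, hnull, hR⟩ := rect_label X P hP μ hμ
  obtain ⟨γ, hγ⟩ := exists_cocycle hP.zero hP.add hP.free
  have hinv' : ∀ g y, y ∉ G → P g y ∉ G := by
    intro g y hy h
    apply hy
    have h1 := hinv (-g) _ h
    rwa [← hP.add, neg_add_cancel, hP.zero] at h1
  refine ⟨f, fun y => if y ∈ G then f y else (.n, .n, decide (((γ y).1 + (γ y).2) % 2 = 0)), G, hf,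
    hG, hinv, hnull, fun y hy => if_pos hy, fun y => ?_⟩
  by_cases hy : y ∈ G
  · have h := hR y hy
    refine ⟨?_, ?_, ?_⟩
    · simp only [if_pos hy, if_pos (hinv (-1, 0) y hy), if_pos (hinv (0, -1) y hy)]
      exact h.ok
    · simp only [if_pos hy, if_pos (hinv (-1, 0) y hy)]
      exact h.ch
    · simp only [if_pos hy, if_pos (hinv (0, -1) y hy)]
      exact h.cv
  · refine ⟨?_, ?_, ?_⟩
    · simp only [if_neg hy, if_neg (hinv' (-1, 0) y hy), if_neg (hinv' (0, -1) y hy)]
      exact Or.inl ⟨rfl, rfl, rfl, rfl⟩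
    · simp only [if_neg hy, if_neg (hinv' (-1, 0) y hy)]
      intro _
      rw [hγ]
      simp only [Prod.fst_add, Prod.snd_add]
      exact dec_flip (by ring)
    · simp only [if_neg hy, if_neg (hinv' (0, -1) y hy)]
      intro _
      rw [hγ]
      simp only [Prod.fst_add, Prod.snd_add]
      exact dec_flip (by ring)

end Pool.Agent.U110
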