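import Pool.Agent.U110.Boxes
import Pool.Agent.U110.Rand

/-!
# Nested boxes cover almost all points, for suitable shifts
-/

set_option autoImplicit false

namespace Pool.Agent.U110

open Pool.Agent.W927.BM Set MeasureTheory Filter

section meas

variable {X : Type} [MeasurableSpace X] {P : ℤ × ℤ → X → X} {D : ℕ → Set X} {v : ℕ → ℤ × ℤ}

theorem Cor_meas (hP : FreeBorel P) (hD : ∀ m, MeasurableSet (D m)) (m : ℕ) :
    MeasurableSet (Cor P D v m) := hP.meas _ (hD m)

theorem Sur_meas (hP : FreeBorel P) (hD : ∀ m, MeasurableSet (D m)) (k : ℕ) :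
    MeasurableSet (Sur P D v k) := by
  classical
  have e : Sur P D v k = Cor P D v k ∩ ⋂ m : ℕ, ⋂ _ : k < m, ⋂ g : ℤ × ℤ, ⋂ _ : ¬ ok k m (-g),
      (P g ⁻¹' Cor P D v m)ᶜ := by
    ext z
    simp only [Sur, mem_ofPred_eq, mem_inter_iff, mem_iInter, mem_compl_iff, mem_preimage]
    constructor
    · rintro ⟨h1, h2⟩
      exact ⟨h1, fun m hm g hg h => hg (h2 m hm g h)⟩
    · rintro ⟨h1, h2⟩
      exact ⟨h1, fun m hm g h => by_contra fun hg => h2 m hm g hg h⟩
  rw [e]
  refine (Cor_meas hP hD k).inter ?_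
  exact MeasurableSet.iInter fun m => MeasurableSet.iInter fun _ => MeasurableSet.iInter fun g =>
    MeasurableSet.iInter fun _ => (hP.meas g (Cor_meas hP hD m)).compl

theorem Ins_meas (hP : FreeBorel P) (hD : ∀ m, MeasurableSet (D m)) (k : ℕ) :
    MeasurableSet (Ins P D v k) := by
  have e : Ins P D v k = ⋃ h : ℤ × ℤ, ⋃ _ : inb k h, P (-h) ⁻¹' Sur P D v k := by
    ext z
    simp only [Ins, mem_ofPred_eq, mem_iUnion, mem_preimage, exists_prop]
  rw [e]
  exact MeasurableSet.iUnion fun h => MeasurableSet.iUnion fun _ => hP.meas _ (Sur_meas hP hD k)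

theorem lev_meas (hP : FreeBorel P) (hD : ∀ m, MeasurableSet (D m)) :
    Measurable (lev P D v) := by
  classical
  refine measurable_to_countable' fun k => ?_
  have e : lev P D v ⁻¹' {k} = (Ins P D v k ∩ ⋂ j : ℕ, ⋂ _ : j < k, (Ins P D v j)ᶜ) ∪
      ({_x | k = 0} ∩ ⋂ j, (Ins P D v j)ᶜ) := by
    ext x
    simp only [mem_preimage, mem_singleton_iff, mem_union, mem_inter_iff, mem_iInter,
      mem_compl_iff, mem_ofPred_eq]
    constructor
    · rintro rfl
      by_cases h : ∃ k, x ∈ Ins P D v k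
      · exact Or.inl ⟨lev_mem h, fun j hj hx => absurd (lev_le hx) (by omega)⟩
      · right
        push Not at h
        refine ⟨?_, h⟩
        unfold lev
        have : {k | x ∈ Ins P D v k} = ∅ := by
          ext j
          simp [h j]
        rw [this]
        exact Nat.sInf_empty
    · rintro (⟨h1, h2⟩ | ⟨h1, h2⟩)
      · refine le_antisymm (lev_le h1) ?_
        by_contra h3
        exact h2 _ (by omega) (lev_mem ⟨k, h1⟩)
      · unfold lev
        have : {k | x ∈ Ins P D v k} = ∅ := by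
          ext j
          simp [h2 j]
        rw [this, h1]
        exact Nat.sInf_empty
  rw [e]
  refine MeasurableSet.union ((Ins_meas hP hD k).inter ?_) (MeasurableSet.inter ?_ ?_)
  · exact MeasurableSet.iInter fun j => MeasurableSet.iInter fun _ => (Ins_meas hP hD j).compl
  · exact MeasurableSet.const _
  · exact MeasurableSet.iInter fun j => (Ins_meas hP hD j).compl

/-- the position in the innermost box is determined -/
theorem pos_uniq (hP : FreeBorel P) (hs : DSep P D) {x : X} {h : ℤ × ℤ}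
    (h1 : inb (lev P D v x) h) (h2 : P (-h) x ∈ Sur P D v (lev P D v x)) : pos P D v x = h := by
  have hx : ∃ k, x ∈ Ins P D v k := ⟨_, h, h1, h2⟩
  have h3 := pos_spec hx
  have e : P 0 x = x := hP.zero x
  have := same (y := x) (q := 0) (q' := 0) hP hs h3.1 h1 (by rw [e]; exact h3.2)
    (by rw [e]; exact h2) (by simp) (by simp)
  simpa using this

theorem pos_meas (hP : FreeBorel P) (hs : DSep P D) (hD : ∀ m, MeasurableSet (D m)) :
    Measurable (pos P D v) := by
  classical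
  refine measurable_to_countable' fun h => ?_
  have e : pos P D v ⁻¹' {h} =
      (⋃ k : ℕ, ⋃ _ : inb k h, lev P D v ⁻¹' {k} ∩ P (-h) ⁻¹' Sur P D v k) ∪
      ({_x | h = 0} ∩ ⋂ k, (Ins P D v k)ᶜ) := by
    ext x
    simp only [mem_preimage, mem_singleton_iff, mem_union, mem_iUnion, mem_inter_iff, exists_prop,
      mem_iInter, mem_compl_iff, mem_ofPred_eq]
    constructor
    · rintro rfl
      by_cases hx : ∃ k, x ∈ Ins P D v k
      · left
        have h1 := pos_spec hx
        exact ⟨_, h1.1, rfl, h1.2⟩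
      · right
        push Not at hx
        refine ⟨?_, hx⟩
        unfold pos
        rw [dif_neg (hx _)]
    · rintro (⟨k, h1, rfl, h2⟩ | ⟨h1, h2⟩)
      · exact pos_uniq hP hs h1 h2
      · unfold pos
        rw [dif_neg (h2 _), h1]
  rw [e]
  refine MeasurableSet.union ?_ (MeasurableSet.inter (MeasurableSet.const _) ?_)
  · exact MeasurableSet.iUnion fun k => MeasurableSet.iUnion fun _ =>
      (lev_meas hP hD (measurableSet_singleton k)).inter (hP.meas _ (Sur_meas hP hD k))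
  · exact MeasurableSet.iInter fun j => (Ins_meas hP hD j).compl

theorem par_meas (hP : FreeBorel P) (hs : DSep P D) (hD : ∀ m, MeasurableSet (D m)) :
    Measurable (par P D v) := by
  have h : Measurable (fun p : ℤ × ℤ => decide ((p.1 + p.2) % 2 = 0)) := measurable_of_countable _
  exact h.comp (pos_meas hP hs hD)

end meas

/-! ### windows -/

/-- window of the shifts -/
noncomputable def Win (m : ℕ) : Finset (ℤ × ℤ) :=
  Finset.Icc (-(2 * LL m)) (LL m) ×ˢ Finset.Icc (-(2 * LL m)) (LL m)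

theorem Win_card (m : ℕ) : ((Win m).card : ℤ) = (3 * LL m + 1) ^ 2 := by
  unfold Win
  rw [Finset.card_product, Int.card_Icc]
  have := LL_pos m
  have e : (((LL m + 1 - -(2 * LL m)).toNat : ℕ) : ℤ) = 3 * LL m + 1 := by
    rw [Int.toNat_of_nonneg (by omega)]; ring
  push_cast [e]
  ring

theorem Win_ne (m : ℕ) : (Win m).Nonempty := by
  have := LL_pos m
  exact ⟨(0, 0), by simp only [Win, Finset.mem_product, Finset.mem_Icc]; omega⟩

/-- uniform measure on the window -/
noncomputable def nu (m : ℕ) : Measure (ℤ × ℤ) := (PMF.uniformOfFinset (Win m) (Win_ne m)).toMeasure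

noncomputable instance (m : ℕ) : IsProbabilityMeasure (nu m) := by
  unfold nu
  infer_instance

open Classical in
theorem nu_apply (m : ℕ) (t : Set (ℤ × ℤ)) :
    nu m t = ((Win m).filter (· ∈ t)).card / (Win m).card := by
  unfold nu
  rw [PMF.toMeasure_uniformOfFinset_apply _ _ (Set.to_countable t).measurableSet]

section est

variable {X : Type} [MeasurableSpace X] {P : ℤ × ℤ → X → X} {D : ℕ → Set X}

open Classical in
theorem cov_card (hP : FreeBorel P)
    (hmax : ∀ m, ∀ x, ∃ g : ℤ × ℤ, |g.1| ≤ LL m ∧ |g.2| ≤ LL m ∧ P g x ∈ D m) (m : ℕ) (x : X) :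
    (LL m) ^ 2 ≤ (((Win m).filter (· ∈ Cov P D m x)).card : ℤ) := by
  obtain ⟨g, hg1, hg2, hg⟩ := hmax m x
  rw [abs_le] at hg1 hg2
  have hL := LL_pos m
  have h1 : (Finset.Ico 0 (LL m) ×ˢ Finset.Ico 0 (LL m)).card ≤
      ((Win m).filter (· ∈ Cov P D m x)).card := by
    refine Finset.card_le_card_of_injOn (fun h => -g - h) ?_ ?_
    · intro h hh
      simp only [Finset.coe_product, Finset.coe_Ico, Set.mem_prod, Set.mem_Ico] at hh
      simp only [Finset.coe_filter, Set.mem_ofPred_eq, Win, Finset.mem_product, Finset.mem_Icc,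
        Prod.fst_sub, Prod.snd_sub, Prod.fst_neg, Prod.snd_neg]
      refine ⟨by omega, h, ⟨hh.1.1, hh.1.2, hh.2.1, hh.2.2⟩, ?_⟩
      have : -(-g - h + h) = g := by abel
      rw [this]
      exact hg
    · intro a _ b _ h
      exact sub_right_injective h
  rw [Finset.card_product, Int.card_Ico] at h1
  have e : (((LL m - 0).toNat : ℕ) : ℤ) = LL m := by
    rw [Int.toNat_of_nonneg (by omega)]; ring
  have h2 : (((LL m - 0).toNat * (LL m - 0).toNat : ℕ) : ℤ) ≤
      (((Win m).filter (· ∈ Cov P D m x)).card : ℤ) := by exact_mod_cast h1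
  push_cast at h2
  rw [e] at h2
  calc (LL m) ^ 2 = LL m * LL m := by ring
    _ ≤ _ := h2

/-- positions in the frame -/
noncomputable def Fr (m : ℕ) : Finset (ℤ × ℤ) :=
  (Finset.Ico (-el m) (LL m + el m) ×ˢ Finset.Ico (-el m) (LL m + el m)) \
    (Finset.Ico (el m) (LL m - el m) ×ˢ Finset.Ico (el m) (LL m - el m))

theorem mem_Fr {m : ℕ} {h : ℤ × ℤ} (hh : frame m h) : h ∈ Fr m := by
  unfold frame at hh
  simp only [Fr, Finset.mem_sdiff, Finset.mem_product, Finset.mem_Ico]
  omega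

theorem LL_step (m : ℕ) (hm : 1 ≤ m) : LL m = 2 * 4 ^ m * LL (m - 1) := by
  obtain ⟨n, rfl⟩ : ∃ n, m = n + 1 := ⟨m - 1, by omega⟩
  unfold LL
  rw [Nat.add_sub_cancel]
  have e : (4 : ℤ) ^ (n + 1) = 2 ^ (2 * (n + 1)) := by
    rw [pow_mul]; norm_num
  rw [e, ← pow_succ', ← pow_add]
  congr 1
  ring

theorem el_le (m : ℕ) (hm : 1 ≤ m) : el m * 4 ^ m ≤ LL m := by
  rw [LL_step m hm]
  unfold el
  have h1 := LL_pos (m - 1)
  have h2 : (0 : ℤ) < 4 ^ m := by positivity
  nlinarith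

theorem el_pos (m : ℕ) : 0 < el m := by
  unfold el
  have := LL_pos (m - 1)
  omega

theorem Fr_card (m : ℕ) (hm : 1 ≤ m) : ((Fr m).card : ℤ) = 8 * LL m * el m := by
  have h1 := el_le m hm
  have h2 := el_pos m
  have h3 : (4 : ℤ) ≤ 4 ^ m := by
    calc (4 : ℤ) = 4 ^ 1 := by norm_num
      _ ≤ 4 ^ m := pow_le_pow_right₀ (by norm_num) hm
  have h4 : 4 * el m ≤ LL m := by nlinarith
  unfold Fr
  rw [Finset.card_sdiff_of_subset (by
    intro h hh
    simp only [Finset.mem_product, Finset.mem_Ico] at hh ⊢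
    omega)]
  rw [Finset.card_product, Finset.card_product, Int.card_Ico, Int.card_Ico]
  have e1 : (((LL m + el m - -el m).toNat : ℕ) : ℤ) = LL m + 2 * el m := by
    rw [Int.toNat_of_nonneg (by omega)]; ring
  have e2 : (((LL m - el m - el m).toNat : ℕ) : ℤ) = LL m - 2 * el m := by
    rw [Int.toNat_of_nonneg (by omega)]; ring
  rw [Nat.cast_sub]
  · push_cast
    rw [e1, e2]
    ring
  · zify
    rw [e1, e2]
    nlinarith

open Classical in
theorem one_card (hP : FreeBorel P) (hs : DSep P D) (m : ℕ) (x : X) (h : ℤ × ℤ) :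
    ((Win m).filter (fun w => P (-(w + h)) x ∈ D m)).card ≤ 9 := by
  have hL := LL_pos m
  have : (Finset.range 3 ×ˢ Finset.range 3).card = 9 := rfl
  rw [← this]
  refine Finset.card_le_card_of_injOn
    (fun w => (((w.1 + 2 * LL m) / (LL m + 1)).toNat, ((w.2 + 2 * LL m) / (LL m + 1)).toNat)) ?_ ?_
  · intro w hw
    simp only [Finset.coe_filter, Win, Finset.mem_product, Finset.mem_Icc, Set.mem_ofPred_eq] at hw
    have a1 : 0 ≤ (w.1 + 2 * LL m) / (LL m + 1) := Int.ediv_nonneg (by omega) (by omega)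
    have a2 : 0 ≤ (w.2 + 2 * LL m) / (LL m + 1) := Int.ediv_nonneg (by omega) (by omega)
    have b1 : (w.1 + 2 * LL m) / (LL m + 1) < 3 := Int.ediv_lt_of_lt_mul (by omega) (by omega)
    have b2 : (w.2 + 2 * LL m) / (LL m + 1) < 3 := Int.ediv_lt_of_lt_mul (by omega) (by omega)
    simp only [Finset.coe_product, Finset.coe_range, Set.mem_prod, Set.mem_Iio]
    omega
  · intro w hw w' hw' he
    simp only [Finset.coe_filter, Win, Finset.mem_product, Finset.mem_Icc, Set.mem_ofPred_eq]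
      at hw hw'
    have a1 : 0 ≤ (w.1 + 2 * LL m) / (LL m + 1) := Int.ediv_nonneg (by omega) (by omega)
    have a2 : 0 ≤ (w.2 + 2 * LL m) / (LL m + 1) := Int.ediv_nonneg (by omega) (by omega)
    have a1' : 0 ≤ (w'.1 + 2 * LL m) / (LL m + 1) := Int.ediv_nonneg (by omega) (by omega)
    have a2' : 0 ≤ (w'.2 + 2 * LL m) / (LL m + 1) := Int.ediv_nonneg (by omega) (by omega)
    simp only [Prod.mk.injEq] at he
    have e1 : (w.1 + 2 * LL m) / (LL m + 1) = (w'.1 + 2 * LL m) / (LL m + 1) := by omega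
    have e2 : (w.2 + 2 * LL m) / (LL m + 1) = (w'.2 + 2 * LL m) / (LL m + 1) := by omega
    have c1 := Int.emod_add_mul_ediv (w.1 + 2 * LL m) (LL m + 1)
    have c1' := Int.emod_add_mul_ediv (w'.1 + 2 * LL m) (LL m + 1)
    have c2 := Int.emod_add_mul_ediv (w.2 + 2 * LL m) (LL m + 1)
    have c2' := Int.emod_add_mul_ediv (w'.2 + 2 * LL m) (LL m + 1)
    have d1 := Int.emod_nonneg (w.1 + 2 * LL m) (show LL m + 1 ≠ 0 by omega)
    have d1' := Int.emod_nonneg (w'.1 + 2 * LL m) (show LL m + 1 ≠ 0 by omega)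
    have d2 := Int.emod_nonneg (w.2 + 2 * LL m) (show LL m + 1 ≠ 0 by omega)
    have d2' := Int.emod_nonneg (w'.2 + 2 * LL m) (show LL m + 1 ≠ 0 by omega)
    have f1 := Int.emod_lt_of_pos (w.1 + 2 * LL m) (show 0 < LL m + 1 by omega)
    have f1' := Int.emod_lt_of_pos (w'.1 + 2 * LL m) (show 0 < LL m + 1 by omega)
    have f2 := Int.emod_lt_of_pos (w.2 + 2 * LL m) (show 0 < LL m + 1 by omega)
    have f2' := Int.emod_lt_of_pos (w'.2 + 2 * LL m) (show 0 < LL m + 1 by omega)
    rw [e1] at c1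
    rw [e2] at c2
    have hd := hs m _ hw.2 (w - w') ?_ ?_ ?_
    · exact sub_eq_zero.1 hd
    · simp only [Prod.fst_sub]
      rw [abs_le]
      omega
    · simp only [Prod.snd_sub]
      rw [abs_le]
      omega
    · rw [← hP.add]
      have : w - w' + -(w + h) = -(w' + h) := by abel
      rw [this]
      exact hw'.2

open Classical in
theorem kil_card (hP : FreeBorel P) (hs : DSep P D) (m : ℕ) (hm : 1 ≤ m) (x : X) :
    (((Win m).filter (· ∈ Kil P D m x)).card : ℤ) * 4 ^ m ≤ 8 * (Win m).card := by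
  have h1 : ((Win m).filter (· ∈ Kil P D m x)).card ≤ (Fr m).card * 9 := by
    have hsub : (Win m).filter (· ∈ Kil P D m x) ⊆
        (Fr m).biUnion fun h => (Win m).filter (fun w => P (-(w + h)) x ∈ D m) := by
      intro w hw
      rw [Finset.mem_filter] at hw
      obtain ⟨hw1, h, hh, hD⟩ := hw
      rw [Finset.mem_biUnion]
      exact ⟨h, mem_Fr hh, Finset.mem_filter.2 ⟨hw1, hD⟩⟩
    refine (Finset.card_le_card hsub).trans ?_
    exact Finset.card_biUnion_le_card_mul _ _ _ fun h _ => one_card hP hs m x h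
  have h2 : (((Win m).filter (· ∈ Kil P D m x)).card : ℤ) ≤ (Fr m).card * 9 := by exact_mod_cast h1
  rw [Fr_card m hm] at h2
  rw [Win_card]
  have h3 := el_le m hm
  have h4 := LL_pos m
  have h5 : (0 : ℤ) < 4 ^ m := by positivity
  have h6 : 8 * LL m * el m * 9 * 4 ^ m = 72 * LL m * (el m * 4 ^ m) := by ring
  calc (((Win m).filter (· ∈ Kil P D m x)).card : ℤ) * 4 ^ m
      ≤ 8 * LL m * el m * 9 * 4 ^ m := by nlinarith
    _ = 72 * LL m * (el m * 4 ^ m) := h6
    _ ≤ 72 * LL m * LL m := by nlinarith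
    _ ≤ 8 * (3 * LL m + 1) ^ 2 := by nlinarith

theorem cov_nu (hP : FreeBorel P)
    (hmax : ∀ m, ∀ x, ∃ g : ℤ × ℤ, |g.1| ≤ LL m ∧ |g.2| ≤ LL m ∧ P g x ∈ D m) (m : ℕ) (x : X) :
    (16 : ENNReal)⁻¹ ≤ nu m (Cov P D m x) := by
  classical
  rw [nu_apply]
  have h1 := cov_card hP hmax m x
  have h2 := Win_card m
  have h3 := LL_pos m
  have h4 : ((Win m).card : ℤ) ≤ 16 * ((Win m).filter (· ∈ Cov P D m x)).card := by
    rw [h2]
    nlinarith
  have h5 : (Win m).card ≤ 16 * ((Win m).filter (· ∈ Cov P D m x)).card := by exact_mod_cast h4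
  have h6 : ((Win m).card : ENNReal) ≤ 16 * (((Win m).filter (· ∈ Cov P D m x)).card : ENNReal) := by
    exact_mod_cast h5
  have h7 : ((Win m).card : ENNReal) ≠ 0 := by
    have := (Win_ne m).card_pos
    exact_mod_cast this.ne'
  rw [ENNReal.le_div_iff_mul_le (Or.inl h7) (Or.inl (ENNReal.natCast_ne_top _)), mul_comm,
    ← div_eq_mul_inv]
  exact ENNReal.div_le_of_le_mul' h6

theorem kil_nu (hP : FreeBorel P) (hs : DSep P D) (m : ℕ) (x : X) :
    nu m (Kil P D m x) ≤ 8 * (4 : ENNReal)⁻¹ ^ m := by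
  classical
  rcases Nat.eq_zero_or_pos m with rfl | hm
  · rw [pow_zero, mul_one]
    exact prob_le_one.trans (by norm_num)
  · rw [nu_apply]
    have h1 := kil_card hP hs m hm x
    have h2 : ((Win m).filter (· ∈ Kil P D m x)).card * 4 ^ m ≤ 8 * (Win m).card := by
      exact_mod_cast h1
    have h3 : (((Win m).filter (· ∈ Kil P D m x)).card : ENNReal) * 4 ^ m ≤
        8 * ((Win m).card : ENNReal) := by exact_mod_cast h2
    have h7 : ((Win m).card : ENNReal) ≠ 0 := by
      have := (Win_ne m).card_pos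
      exact_mod_cast this.ne'
    refine ENNReal.div_le_of_le_mul ?_
    rw [mul_right_comm, ← ENNReal.inv_pow, ← div_eq_mul_inv]
    rw [ENNReal.le_div_iff_mul_le]
    · exact h3
    · left
      positivity
    · left
      exact ENNReal.pow_ne_top (by norm_num)

end est

theorem rect_cover (X : Type) [MeasurableSpace X] [StandardBorelSpace X] (P : ℤ × ℤ → X → X)
    (hP : FreeBorel P) {ι : Type} [Countable ι] (μ : ι → Measure X)
    (hμ : ∀ i, IsProbabilityMeasure (μ i)) :
    ∃ (D : ℕ → Set X) (v : ℕ → ℤ × ℤ) (G : Set X), (∀ m, MeasurableSet (D m)) ∧ DSep P D ∧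
      MeasurableSet G ∧ (∀ g, ∀ y ∈ G, P g y ∈ G) ∧ (∀ i, μ i Gᶜ = 0) ∧
      ∀ y ∈ G, ∃ k, y ∈ Ins P D v k := by
  classical
  have hex : ∀ m, ∃ D : Set X, MeasurableSet D ∧
      (∀ x ∈ D, ∀ g : ℤ × ℤ, |g.1| ≤ LL m → |g.2| ≤ LL m → P g x ∈ D → g = 0) ∧
      ∀ x, ∃ g : ℤ × ℤ, |g.1| ≤ LL m ∧ |g.2| ≤ LL m ∧ P g x ∈ D := by
    intro m
    have hL := LL_pos m
    let F : Finset (ℤ × ℤ) := (Finset.Icc (-LL m) (LL m) ×ˢ Finset.Icc (-LL m) (LL m)).erase 0
    have hmem : ∀ g : ℤ × ℤ, g ∈ F ↔ g ≠ 0 ∧ |g.1| ≤ LL m ∧ |g.2| ≤ LL m := by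
      intro g
      simp only [F, Finset.mem_erase, Finset.mem_product, Finset.mem_Icc, abs_le]
    obtain ⟨D, h1, -, h3, h4⟩ := exists_max (F := F) hP (by
      intro g hg
      rw [hmem] at hg ⊢
      simp only [Prod.fst_neg, Prod.snd_neg, abs_neg, neg_ne_zero]
      exact hg) (by rw [hmem]; simp) (Y := univ) MeasurableSet.univ
    refine ⟨D, h1, ?_, ?_⟩
    · intro x hx g hg1 hg2 hg
      by_contra hne
      exact h3 x hx g ((hmem g).2 ⟨hne, hg1, hg2⟩) hg
    · intro x
      rcases h4 x (mem_univ x) with h | ⟨g, hg, h⟩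
      · refine ⟨0, ?_, ?_, ?_⟩
        · simp; omega
        · simp; omega
        · rw [hP.zero]; exact h
      · rw [hmem] at hg
        exact ⟨g, hg.2.1, hg.2.2, h⟩
  choose D hD hs hmax using hex
  have hs' : DSep P D := hs
  let good : X → (ℕ → ℤ × ℤ) → Prop := fun x v => ∀ g : ℤ × ℤ,
    (∃ᶠ m in atTop, v m ∈ Cov P D m (P g x)) ∧ ∀ᶠ m in atTop, v m ∉ Kil P D m (P g x)
  have hae : ∀ x, ∀ᵐ v ∂(Measure.infinitePi nu), good x v := by
    intro x
    simp only [good]
    rw [ae_all_iff]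
    intro g
    refine rand nu (fun m => Cov P D m (P g x)) (fun m => Kil P D m (P g x))
      (fun m => (Set.to_countable _).measurableSet) (fun m => (Set.to_countable _).measurableSet)
      (16 : ENNReal)⁻¹ (by simp) (fun m => cov_nu hP hmax m _) ?_
    refine ne_top_of_le_ne_top ?_ (ENNReal.tsum_le_tsum fun m => kil_nu hP hs' m (P g x))
    rw [ENNReal.tsum_mul_left, ENNReal.tsum_geometric]
    refine ENNReal.mul_ne_top (by norm_num) ?_
    rw [ENNReal.inv_ne_top]
    have : (4 : ENNReal)⁻¹ < 1 := by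
      rw [ENNReal.inv_lt_one]; norm_num
    exact (tsub_pos_of_lt this).ne'
  -- measurability
  have hCm : ∀ m (w : ℤ × ℤ), MeasurableSet {x | w ∈ Cov P D m x} := by
    intro m w
    have : {x | w ∈ Cov P D m x} = ⋃ h : ℤ × ℤ, ⋃ _ : inb m h, P (-(w + h)) ⁻¹' D m := by
      ext x; simp [Cov]
    rw [this]
    exact MeasurableSet.iUnion fun h => MeasurableSet.iUnion fun _ => hP.meas _ (hD m)
  have hKm : ∀ m (w : ℤ × ℤ), MeasurableSet {x | w ∈ Kil P D m x} := by
    intro m w
    have : {x | w ∈ Kil P D m x} = ⋃ h : ℤ × ℤ, ⋃ _ : frame m h, P (-(w + h)) ⁻¹' D m := by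
      ext x; simp [Kil]
    rw [this]
    exact MeasurableSet.iUnion fun h => MeasurableSet.iUnion fun _ => hP.meas _ (hD m)
  have hmg : MeasurableSet {p : X × (ℕ → ℤ × ℤ) | good p.1 p.2} := by
    have hC : ∀ g m, MeasurableSet {p : X × (ℕ → ℤ × ℤ) | p.2 m ∈ Cov P D m (P g p.1)} := by
      intro g m
      have : {p : X × (ℕ → ℤ × ℤ) | p.2 m ∈ Cov P D m (P g p.1)} =
          ⋃ w : ℤ × ℤ, (fun p => p.2 m) ⁻¹' {w} ∩ (fun p => P g p.1) ⁻¹' {x | w ∈ Cov P D m x} := by
        ext p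
        simp only [mem_ofPred_eq, mem_iUnion, mem_inter_iff, mem_preimage, mem_singleton_iff]
        constructor
        · intro h; exact ⟨_, rfl, h⟩
        · rintro ⟨w, hw, h⟩; rw [hw]; exact h
      rw [this]
      refine MeasurableSet.iUnion fun w => MeasurableSet.inter ?_ ?_
      · exact ((measurable_pi_apply m).comp measurable_snd) (measurableSet_singleton w)
      · exact ((hP.meas g).comp measurable_fst) (hCm m w)
    have hK : ∀ g m, MeasurableSet {p : X × (ℕ → ℤ × ℤ) | p.2 m ∈ Kil P D m (P g p.1)} := by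
      intro g m
      have : {p : X × (ℕ → ℤ × ℤ) | p.2 m ∈ Kil P D m (P g p.1)} =
          ⋃ w : ℤ × ℤ, (fun p => p.2 m) ⁻¹' {w} ∩ (fun p => P g p.1) ⁻¹' {x | w ∈ Kil P D m x} := by
        ext p
        simp only [mem_ofPred_eq, mem_iUnion, mem_inter_iff, mem_preimage, mem_singleton_iff]
        constructor
        · intro h; exact ⟨_, rfl, h⟩
        · rintro ⟨w, hw, h⟩; rw [hw]; exact h
      rw [this]
      refine MeasurableSet.iUnion fun w => MeasurableSet.inter ?_ ?_
      · exact ((measurable_pi_apply m).comp measurable_snd) (measurableSet_singleton w)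
      · exact ((hP.meas g).comp measurable_fst) (hKm m w)
    have e : {p : X × (ℕ → ℤ × ℤ) | good p.1 p.2} =
        ⋂ g : ℤ × ℤ, (⋂ n : ℕ, ⋃ m : ℕ, ⋃ _ : n ≤ m, {p | p.2 m ∈ Cov P D m (P g p.1)}) ∩
          (⋃ n : ℕ, ⋂ m : ℕ, ⋂ _ : n ≤ m, {p | p.2 m ∈ Kil P D m (P g p.1)}ᶜ) := by
      ext p
      simp only [good, mem_ofPred_eq, mem_iInter, mem_inter_iff, mem_iUnion, frequently_atTop,
        eventually_atTop, mem_compl_iff, exists_prop, ge_iff_le]
    rw [e]
    refine MeasurableSet.iInter fun g => MeasurableSet.inter ?_ ?_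
    · exact MeasurableSet.iInter fun n => MeasurableSet.iUnion fun m => MeasurableSet.iUnion
        fun _ => hC g m
    · exact MeasurableSet.iUnion fun n => MeasurableSet.iInter fun m => MeasurableSet.iInter
        fun _ => (hK g m).compl
  have h3 : ∀ᵐ v ∂(Measure.infinitePi nu), ∀ i, ∀ᵐ x ∂(μ i), good x v := by
    rw [ae_all_iff]
    intro i
    exact (Measure.ae_ae_comm hmg).1 (Eventually.of_forall hae)
  obtain ⟨v, hv⟩ := h3.exists
  refine ⟨D, v, ⋂ g : ℤ × ℤ, P g ⁻¹' (⋃ k, Ins P D v k), hD, hs', ?_, ?_, ?_, ?_⟩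
  · exact MeasurableSet.iInter fun g => hP.meas g (MeasurableSet.iUnion fun k => Ins_meas hP hD k)
  · intro g y hy
    rw [mem_iInter] at hy ⊢
    intro g'
    rw [mem_preimage, ← hP.add]
    exact hy _
  · intro i
    have : ∀ᵐ x ∂(μ i), x ∈ ⋂ g : ℤ × ℤ, P g ⁻¹' (⋃ k, Ins P D v k) := by
      filter_upwards [hv i] with x hx
      rw [mem_iInter]
      intro g
      obtain ⟨h4, h5⟩ := hx g
      rw [eventually_atTop] at h5
      obtain ⟨m0, hm0⟩ := h5
      rw [frequently_atTop] at h4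
      obtain ⟨k, hk, hc⟩ := h4 m0
      exact mem_iUnion.2 ⟨k, ins_of_cov hP hm0 hk hc⟩
    exact this
  · intro y hy
    rw [mem_iInter] at hy
    have := hy 0
    rw [mem_preimage, hP.zero, mem_iUnion] at this
    exact this

end Pool.Agent.U110
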